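import Pool.Agent.Helper93_MEN.PStmts

/-!
# Squad MEN, the Menger part: basic definitions and tools

Everything is about the product of the two iterations along `Ix`; points `z : PP`, `z.1` Miller,
`z.2` Sacks.
-/

open MeasureTheory Set

namespace Pool.Agent.Men

/-- `f z` depends, as far as the Miller part is concerned, only on the coordinates in `J`. -/
def DepY {β : Type*} (J : Set Ix) (f : PP → β) : Prop :=
  ∀ y y' x, (∀ i ∈ J, y i = y' i) → f (y, x) = f (y', x)

/-- `f z` depends only on the coordinates in `J` of both parts. -/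
def DepP {β : Type*} (J : Set Ix) (f : PP → β) : Prop :=
  ∀ z z' : PP, (∀ i ∈ J, z.1 i = z'.1 i) → (∀ i ∈ J, z.2 i = z'.2 i) → f z = f z'

theorem DepP.depY {β : Type*} {J : Set Ix} {f : PP → β} (h : DepP J f) : DepY J f :=
  fun y y' x hy => h (y, x) (y', x) hy fun _ _ => rfl

/-! ### The two facts used from the forcing part -/

/-- A measurable function with values in `ℕ` which depends on the Miller part only through the
coordinates in the lower set `J` is constant on a stronger pair of conditions; the Miller part has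
to be changed only on `J`. -/
def ConstP : Prop :=
  ∀ J : Set Ix, IsLowerSet J → ∀ (p : Cond ℕ Ix) (q : Cond (Fin 2) Ix)
    (f : PP → ℕ), Measurable f → DepY J f →
    ∃ r : Cond ℕ Ix, r.Below J ∧ r ≤ p.restr J ∧ ∃ q' ≤ q, ∃ c, ∀ z ∈ rb (r, q'), f z = c

/-- The Sacks part is bounding over the Miller part. -/
def BndP : Prop :=
  ∀ J : Set Ix, IsLowerSet J → ∀ (p : Cond ℕ Ix) (q : Cond (Fin 2) Ix)
    (h : PP → ℕ → ℕ), Measurable h → DepY J h →
    ∃ r : Cond ℕ Ix, r.Below J ∧ r ≤ p.restr J ∧ ∃ q' ≤ q, ∃ h' : Pt ℕ Ix → ℕ → ℕ,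
      Measurable h' ∧ DepFun J h' ∧ ∀ z ∈ rb (r, q'), ∀ n, h z n ≤ h' z.1 n

/-! ### Order -/

theorem rb_mono {r r' : RC} (h : r' ≤ r) : rb r' ⊆ rb r := Set.prod_mono h.1 h.2

theorem mem_rb {r : RC} {z : PP} : z ∈ rb r ↔ z.1 ∈ r.1.body ∧ z.2 ∈ r.2.body := Iff.rfl

theorem rb_nonempty (r : RC) : (rb r).Nonempty :=
  ⟨(r.1.body_nonempty.some, r.2.body_nonempty.some),
    r.1.body_nonempty.some_mem, r.2.body_nonempty.some_mem⟩

theorem measurableSet_rb (r : RC) : MeasurableSet (rb r) :=
  r.1.measurableSet_body.prod r.2.measurableSet_body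

theorem isLowerSet_Iio (g : Ix) : IsLowerSet (Set.Iio g) := fun _ _ h h' => lt_of_le_of_lt h h'

/-! ### Consequences of `ConstP` -/

/-- Version of `ConstP` for the whole index set, with glued conditions. -/
theorem const_univ (hC : ConstP) (r : RC) {f : PP → ℕ} (hf : Measurable f) :
    ∃ r' ≤ r, ∃ c, ∀ z ∈ rb r', f z = c := by
  obtain ⟨p, _, h2, q, hq, c, hc⟩ := hC Set.univ (fun _ _ _ _ => trivial) r.1 r.2 f hf
    (fun y y' x h => by rw [funext fun i => h i trivial])
  refine ⟨(p, q), ⟨h2.trans ?_, hq⟩, c, hc⟩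
  intro y hy
  rw [Cond.restr_body, Cond.on_univ] at hy
  exact hy

/-- Version of `ConstP` with the glued condition: the Miller part is changed only on `J`. -/
theorem const_glue (hC : ConstP) {J : Set Ix} (hJ : IsLowerSet J) (r : RC) {f : PP → ℕ}
    (hf : Measurable f) (hd : DepY J f) :
    ∃ r' ≤ r, (∀ i, i ∉ J → ∀ y, r'.1.T i y = r.1.T i y) ∧ ∃ c, ∀ z ∈ rb r', f z = c := by
  obtain ⟨p, h1, h2, q, hq, c, hc⟩ := hC J hJ r.1 r.2 f hf hd
  refine ⟨(Cond.glue p r.1 J, q), ⟨Cond.glue_le_right h1 h2, hq⟩,
    fun i hi y => Cond.glue_T' _ _ hi y, c, fun z hz => hc z ⟨Cond.glue_le_left h1 hz.1, hz.2⟩⟩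

/-- Deciding a measurable set. -/
theorem dec_univ (hC : ConstP) (r : RC) {A : Set PP} (hA : MeasurableSet A) :
    ∃ r' ≤ r, rb r' ⊆ A ∨ rb r' ⊆ Aᶜ := by
  classical
  obtain ⟨r', h1, c, hc⟩ := const_univ hC r (f := fun z => if z ∈ A then 1 else 0)
    (measurable_const.ite hA measurable_const)
  refine ⟨r', h1, ?_⟩
  by_cases h : c = 1
  · left
    intro z hz
    have := hc z hz
    by_contra hA'
    simp [hA', h] at this
  · right
    intro z hz hA'
    have := hc z hz
    simp only [hA', if_true] at this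
    exact h this.symm

/-- If no stronger condition is inside the complement of `A n`, for any `n`, then there is a
stronger condition inside all the `A n`; the Miller part is changed only on `J` if the sets depend
on the Miller part only through `J`. -/
theorem dense_inter_J (hC : ConstP) {J : Set Ix} (hJ : IsLowerSet J) (r : RC) {A : ℕ → Set PP}
    (hA : ∀ n, MeasurableSet (A n)) (hd : ∀ n, DepY J (fun z => z ∈ A n))
    (h : ∀ n, ∀ r' ≤ r, ¬ rb r' ⊆ (A n)ᶜ) :
    ∃ r' ≤ r, (∀ i, i ∉ J → ∀ y, r'.1.T i y = r.1.T i y) ∧ ∀ n, rb r' ⊆ A n := by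
  classical
  let f : PP → ℕ := fun z => if h : ∃ n, z ∉ A n then Nat.find h + 1 else 0
  have hf : Measurable f := by
    apply measurable_to_countable'
    intro n
    rcases n with _ | n
    · have : f ⁻¹' {0} = ⋂ n, A n := by
        ext z
        simp only [Set.mem_preimage, Set.mem_singleton_iff, Set.mem_iInter, f]
        constructor
        · intro h0 n
          by_contra hn
          rw [dif_pos ⟨n, hn⟩] at h0
          omega
        · intro h0
          rw [dif_neg]
          push Not
          exact h0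
      rw [this]
      exact MeasurableSet.iInter hA
    · have : f ⁻¹' {n + 1} = (A n)ᶜ ∩ ⋂ m : Fin n, A m.1 := by
        ext z
        simp only [Set.mem_preimage, Set.mem_singleton_iff, Set.mem_iInter, f, Set.mem_inter_iff,
          Set.mem_compl_iff]
        constructor
        · intro h0
          by_cases h1 : ∃ n, z ∉ A n
          · rw [dif_pos h1] at h0
            have h2 : Nat.find h1 = n := by omega
            refine ⟨h2 ▸ Nat.find_spec h1, fun m => ?_⟩
            have := Nat.find_min h1 (m := m.1) (by omega)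
            simpa using this
          · rw [dif_neg h1] at h0
            omega
        · rintro ⟨h0, h1⟩
          have h2 : ∃ n, z ∉ A n := ⟨n, h0⟩
          rw [dif_pos h2]
          have h3 : Nat.find h2 = n := by
            rw [Nat.find_eq_iff]
            exact ⟨h0, fun m hm => by simpa using h1 ⟨m, hm⟩⟩
          omega
      rw [this]
      exact (hA n).compl.inter (MeasurableSet.iInter fun m => hA m.1)
  have hfd : DepY J f := by
    intro y y' x hy
    have h1 : ∀ n, ((y, x) ∈ A n) = ((y', x) ∈ A n) := fun n => hd n y y' x hy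
    simp only [f, h1]
  obtain ⟨r', h1, hT, c, hc⟩ := const_glue hC hJ r hf hfd
  refine ⟨r', h1, hT, ?_⟩
  rcases c with _ | c
  · intro n z hz
    by_contra hn
    have := hc z hz
    simp only [f] at this
    rw [dif_pos ⟨n, hn⟩] at this
    omega
  · exfalso
    apply h c r' h1
    intro z hz
    have := hc z hz
    simp only [f] at this
    by_cases h2 : ∃ n, z ∉ A n
    · rw [dif_pos h2] at this
      have h3 : Nat.find h2 = c := by omega
      exact h3 ▸ Nat.find_spec h2
    · rw [dif_neg h2] at this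
      omega

/-- The same for the whole index set. -/
theorem dense_inter (hC : ConstP) (r : RC) {A : ℕ → Set PP} (hA : ∀ n, MeasurableSet (A n))
    (h : ∀ n, ∀ r' ≤ r, ¬ rb r' ⊆ (A n)ᶜ) : ∃ r' ≤ r, ∀ n, rb r' ⊆ A n := by
  obtain ⟨r', h1, -, h2⟩ := dense_inter_J hC (J := Set.univ) (fun _ _ _ _ => trivial) r hA
    (fun n y y' x hy => by rw [funext fun i => hy i trivial]) h
  exact ⟨r', h1, h2⟩

end Pool.Agent.Men
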