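import Pool.Agent.Helper98_MEN.XY2

/-!
# Squad MEN, the Menger part: the product `X × Y` is not Menger
-/

open MeasureTheory Set

namespace Pool.Agent.Men

/-! ### Cylinders of the Cantor set -/

/-- The integer with base three digits `2 t 0, ..., 2 t (L - 1)`. -/
def nn3 (t : ℕ → Fin 2) : ℕ → ℕ
  | 0 => 0
  | L + 1 => 3 * nn3 t L + 2 * (t L).val

theorem even_nn3 (t : ℕ → Fin 2) (L : ℕ) : 2 ∣ nn3 t L := by
  induction L with
  | zero => exact dvd_zero _
  | succ L ih => simp only [nn3]; omega

theorem nn3_inj {t t' : ℕ → Fin 2} {L : ℕ} (h : nn3 t L = nn3 t' L) : ∀ i < L, t i = t' i := by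
  induction L with
  | zero => intro i hi; omega
  | succ L ih =>
    simp only [nn3] at h
    have h1 := (t L).isLt
    have h2 := (t' L).isLt
    intro i hi
    rcases Nat.lt_succ_iff_lt_or_eq.1 hi with h3 | h3
    · exact ih (by omega) i h3
    · subst h3
      apply Fin.ext
      omega

theorem nn3_congr {t t' : ℕ → Fin 2} {L : ℕ} (h : ∀ i < L, t i = t' i) : nn3 t L = nn3 t' L := by
  induction L with
  | zero => rfl
  | succ L ih =>
    simp only [nn3]
    rw [ih fun i hi => h i (by omega), h L (by omega)]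

theorem sum_eq_nn3 (t : ℕ → Fin 2) (L : ℕ) :
    (∑ n ∈ Finset.range L, (2 * ((t n : ℕ) : ℝ)) / 3 ^ (n + 1)) = (nn3 t L : ℝ) / 3 ^ L := by
  induction L with
  | zero => simp [nn3]
  | succ L ih =>
    rw [Finset.sum_range_succ, ih]
    simp only [nn3]
    push_cast
    field_simp
    ring

/-- An interval containing exactly the points of the Cantor set extending `t 0, ..., t (L-1)`. -/
def cyl (t : ℕ → Fin 2) (L : ℕ) : ℚ × ℚ :=
  ((nn3 t L : ℚ) / 3 ^ L - 1 / (2 * 3 ^ L), (nn3 t L : ℚ) / 3 ^ L + 3 / (2 * 3 ^ L))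

theorem mem_cyl (t u : ℕ → Fin 2) (L : ℕ) :
    th t ∈ Set.Ioo ((cyl u L).1 : ℝ) ((cyl u L).2 : ℝ) ↔ ∀ i < L, t i = u i := by
  have h1 := th_bounds t L
  rw [sum_eq_nn3] at h1
  have h3 : (0 : ℝ) < 3 ^ L := by positivity
  simp only [cyl, Set.mem_Ioo]
  push_cast
  constructor
  · rintro ⟨h4, h5⟩
    apply nn3_inj
    by_contra hne
    have h6 := even_nn3 t L
    have h7 := even_nn3 u L
    have h8 : (nn3 t L : ℝ) ≤ nn3 u L - 2 ∨ (nn3 u L : ℝ) + 2 ≤ nn3 t L := by
      rcases Nat.lt_or_gt_of_ne hne with h | h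
      · left
        have : nn3 t L + 2 ≤ nn3 u L := by omega
        have : ((nn3 t L + 2 : ℕ) : ℝ) ≤ nn3 u L := by exact_mod_cast this
        push_cast at this
        linarith
      · right
        have : nn3 u L + 2 ≤ nn3 t L := by omega
        have : ((nn3 u L + 2 : ℕ) : ℝ) ≤ nn3 t L := by exact_mod_cast this
        push_cast at this
        linarith
    have h9 : (nn3 t L : ℝ) / 3 ^ L * 3 ^ L = nn3 t L := by field_simp
    have h10 : (nn3 u L : ℝ) / 3 ^ L * 3 ^ L = nn3 u L := by field_simp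
    have h11 : (1 : ℝ) / (2 * 3 ^ L) * 3 ^ L = 1 / 2 := by field_simp
    have h12 : (3 : ℝ) / (2 * 3 ^ L) * 3 ^ L = 3 / 2 := by field_simp
    have h13 : (1 : ℝ) / 3 ^ L * 3 ^ L = 1 := by field_simp
    have h14 := mul_lt_mul_of_pos_right h4 h3
    have h15 := mul_lt_mul_of_pos_right h5 h3
    have h16 := mul_le_mul_of_nonneg_right h1.1 h3.le
    have h17 := mul_le_mul_of_nonneg_right h1.2 h3.le
    rw [sub_mul, h10, h11] at h14
    rw [add_mul, h10, h12] at h15
    rw [h9] at h16
    rw [add_mul, h9, h13] at h17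
    rcases h8 with h8 | h8 <;> linarith
  · intro h
    rw [← nn3_congr h]
    have h11 : (0 : ℝ) < 1 / (2 * 3 ^ L) := by positivity
    have h12 : (1 : ℝ) / 3 ^ L < 3 / (2 * 3 ^ L) := by
      rw [div_lt_div_iff₀ h3 (by positivity)]
      linarith
    constructor <;> linarith [h1.1, h1.2]

/-! ### The covers of the product -/

/-- Sequence of a list. -/
def sq (s : List (Fin 2)) : ℕ → Fin 2 := fun i => s.getD i 0

/-- The rectangle number `k` of the cover number `n`. -/
def cc (m : ℕ) : ℕ :=
  match (Encodable.decode m.unpair.2 : Option (List (Fin 2) × List (Fin 2))) with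
  | none => Nat.pair (@Encodable.encode (ℚ × ℚ) Denumerable.toEncodable (0, 0))
      (@Encodable.encode (ℚ × ℚ) Denumerable.toEncodable (0, 0))
  | some L =>
    if L.1.length = L.2.length ∧
      m.unpair.1 + 1 ≤ ((Finset.range L.1.length).filter fun j => sq L.1 j ≠ sq L.2 j).card
    then Nat.pair (@Encodable.encode (ℚ × ℚ) Denumerable.toEncodable (cyl (sq L.1) L.1.length))
      (@Encodable.encode (ℚ × ℚ) Denumerable.toEncodable (cyl (sq L.2) L.2.length))
    else Nat.pair (@Encodable.encode (ℚ × ℚ) Denumerable.toEncodable (0, 0))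
      (@Encodable.encode (ℚ × ℚ) Denumerable.toEncodable (0, 0))

theorem iv_encode (w : ℚ × ℚ) : iv (@Encodable.encode (ℚ × ℚ) Denumerable.toEncodable w) =
    Set.Ioo (w.1 : ℝ) (w.2 : ℝ) := by
  rw [iv, Denumerable.ofNat_encode]

theorem iv2_pair (w w' : ℚ × ℚ) :
    iv2 (Nat.pair (@Encodable.encode (ℚ × ℚ) Denumerable.toEncodable w)
      (@Encodable.encode (ℚ × ℚ) Denumerable.toEncodable w')) =
    Set.Ioo (w.1 : ℝ) (w.2 : ℝ) ×ˢ Set.Ioo (w'.1 : ℝ) (w'.2 : ℝ) := by
  rw [iv2, Nat.unpair_pair, iv_encode, iv_encode]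

theorem cc_mem {a b : ℕ → Fin 2} {n k : ℕ} (h : (th a, th b) ∈ iv2 (cc (Nat.pair n k))) :
    ∃ L : List (Fin 2) × List (Fin 2), Encodable.decode k = some L ∧
      n + 1 ≤ ((Finset.range L.1.length).filter fun j => a j ≠ b j).card := by
  rw [cc, Nat.unpair_pair] at h
  rcases hd : (Encodable.decode k : Option (List (Fin 2) × List (Fin 2))) with _ | L
  · rw [hd] at h
    simp only [iv2_pair] at h
    simp at h
  · rw [hd] at h
    simp only at h
    split_ifs at h with h1
    · rw [iv2_pair] at h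
      have h2 := (mem_cyl _ _ _).1 h.1
      have h3 := (mem_cyl _ _ _).1 h.2
      refine ⟨L, rfl, ?_⟩
      convert h1.2 using 2
      apply Finset.filter_congr
      intro j hj
      rw [Finset.mem_range] at hj
      rw [h2 j hj, h3 j (h1.1 ▸ hj)]
    · rw [iv2_pair] at h
      simp at h

theorem sq_ofFn (t : ℕ → Fin 2) (L : ℕ) : ∀ i < L, sq (List.ofFn fun j : Fin L => t j.1) i = t i := by
  intro i hi
  simp [sq, hi]

theorem cc_mem' {a b : ℕ → Fin 2} {n L : ℕ}
    (h : n + 1 ≤ ((Finset.range L).filter fun j => a j ≠ b j).card) :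
    (th a, th b) ∈ iv2 (cc (Nat.pair n (Encodable.encode
      ((List.ofFn fun j : Fin L => a j.1, List.ofFn fun j : Fin L => b j.1) :
        List (Fin 2) × List (Fin 2))))) := by
  rw [cc, Nat.unpair_pair]
  simp only [Encodable.encodek]
  rw [if_pos]
  · rw [iv2_pair]
    refine ⟨(mem_cyl _ _ _).2 fun i hi => ?_, (mem_cyl _ _ _).2 fun i hi => ?_⟩
    · rw [List.length_ofFn] at hi
      rw [sq_ofFn a L i hi]
    · rw [List.length_ofFn] at hi
      rw [sq_ofFn b L i hi]
  · refine ⟨by simp, ?_⟩
    convert h using 2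
    rw [List.length_ofFn]
    apply Finset.filter_congr
    intro j hj
    rw [Finset.mem_range] at hj
    rw [sq_ofFn a L j hj, sq_ofFn b L j hj]

/-! ### The elements of `X` and `Y` differ infinitely often -/

/-- The sequences of the elements of `X`. -/
def xs (i : XI) (z : PP) : ℕ → Fin 2 := padd (z.2 i.1) i.2

/-- The sequences of the elements of `Y`. -/
noncomputable def ys : YI → PP → ℕ → Fin 2
  | .inl i, z => padd (z.2 i.1) i.2
  | .inr i, z => padd (fun n => z.2 i.1 n + eg (z.1 i.1) n) i.2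

theorem xr_eq (i : XI) (z : PP) : xr i z = th (xs i z) := rfl

theorem yr_eq (j : YI) (z : PP) : yr j z = th (ys j z) := by
  rcases j with j | j <;> rfl

theorem measurable_xs (i : XI) : Measurable (xs i) :=
  (measurable_padd i.2).comp ((measurable_pi_apply (i.1 : Ix)).comp measurable_snd)

theorem measurable_ys (j : YI) : Measurable (ys j) := by
  rcases j with j | j
  · exact (measurable_padd j.2).comp ((measurable_pi_apply (j.1 : Ix)).comp measurable_snd)
  · exact (measurable_padd j.2).comp (measurable_add_eg j.1)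

/-- Two points of a Sacks condition which agree below `β` and differ at `β` beyond `m`. -/
theorem exists_two (q : Cond (Fin 2) Ix) (β : Ix) (m : ℕ) :
    ∃ x ∈ q.body, ∃ x' ∈ q.body, (∀ i < β, x i = x' i) ∧ ∃ n ≥ m, x β n ≠ x' β n := by
  obtain ⟨x0, hx0⟩ := q.body_nonempty
  have hG : Perf (q.T β x0) := q.good β x0
  obtain ⟨t, ht, -⟩ := exists_branch (D := Fin 2) (q.good β x0) hG.nil
  obtain ⟨τ, -, h2, h3, h4⟩ := hG.split _ (ht m)
  obtain ⟨t0, h5, h6⟩ := exists_branch (D := Fin 2) (q.good β x0) h3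
  obtain ⟨t1, h7, h8⟩ := exists_branch (D := Fin 2) (q.good β x0) h4
  obtain ⟨x, h9, h10, h11⟩ := q.exists_ext_at β (fun i _ => hx0 i) h5
  obtain ⟨x', h12, h13, h14⟩ := q.exists_ext_at β (fun i _ => hx0 i) h7
  refine ⟨x, h9, x', h12, fun i hi => (h10 i hi).trans (h13 i hi).symm, τ.length, ?_, ?_⟩
  · have := h2.length_le
    simpa using this
  · rw [h11, h14]
    intro h15
    have hl : ∀ (a : ℕ), (τ ++ [a]).length = τ.length + 1 := fun a => by simp
    have h16 : Alph.toN (t0 τ.length) = 0 := by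
      rw [hl, pre_succ] at h6
      have := (List.append_inj' h6 rfl).2
      simpa using this
    have h17 : Alph.toN (t1 τ.length) = 1 := by
      rw [hl, pre_succ] at h8
      have := (List.append_inj' h8 rfl).2
      simpa using this
    rw [h15, h17] at h16
    omega

theorem add_left_inj2 {a b c : Fin 2} (h : a + c = b + c) : a = b := by
  revert a b c
  decide

theorem diff_inf (hC : ConstP) (i : XI) (j : YI) (r : RC) :
    ∃ r' ≤ r, ∀ z ∈ rb r', ∀ m, ∃ n ≥ m, xs i z n ≠ ys j z n := by
  have hme : ∀ n, MeasurableSet {z | xs i z n = ys j z n} := fun n =>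
    measurableSet_eq_fun ((measurable_pi_apply n).comp (measurable_xs i))
      ((measurable_pi_apply n).comp (measurable_ys j))
  have hmm : ∀ m, MeasurableSet {z | ∃ n ≥ m, xs i z n ≠ ys j z n} := by
    intro m
    have : {z | ∃ n ≥ m, xs i z n ≠ ys j z n} = ⋃ n : {n : ℕ // n ≥ m},
        {z | xs i z n.1 = ys j z n.1}ᶜ := by
      ext z
      simp
    rw [this]
    exact MeasurableSet.iUnion fun n => (hme n.1).compl
  obtain ⟨r', h1, h2⟩ := dense_inter hC r (A := fun m => {z | ∃ n ≥ m, xs i z n ≠ ys j z n}) hmm (by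
    intro m r' hr' hcon
    have h3 : ∀ z ∈ rb r', ∀ n ≥ m, xs i z n = ys j z n := by
      intro z hz n hn
      by_contra h
      exact hcon hz ⟨n, hn, h⟩
    obtain ⟨y, hy⟩ := r'.1.body_nonempty
    rcases j with j | j
    · have hne : (i.1 : Ix) ≠ j.1 := by
        intro h
        have h4 := i.1.2
        have h5 := j.1.2
        rw [h, h5] at h4
        exact absurd h4 (by simp)
      rcases lt_or_gt_of_ne hne with hlt | hlt
      · obtain ⟨x, h4, x', h5, h6, n, hn, h7⟩ := exists_two r'.2 j.1 m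
        have h8 := h3 (y, x) ⟨hy, h4⟩ n hn
        have h9 := h3 (y, x') ⟨hy, h5⟩ n hn
        simp only [xs, ys, padd] at h8 h9
        rw [h6 _ hlt, h9] at h8
        exact h7 (add_left_inj2 h8).symm
      · obtain ⟨x, h4, x', h5, h6, n, hn, h7⟩ := exists_two r'.2 i.1 m
        have h8 := h3 (y, x) ⟨hy, h4⟩ n hn
        have h9 := h3 (y, x') ⟨hy, h5⟩ n hn
        simp only [xs, ys, padd] at h8 h9
        rw [h6 _ hlt, ← h9] at h8
        exact h7 (add_left_inj2 h8)
    · by_cases hne : (i.1 : Ix) = j.1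
      · obtain ⟨x, hx⟩ := r'.2.body_nonempty
        let k := m + i.2.sup id + j.2.sup id
        have hk := le_As (y j.1) k
        have h8 := h3 (y, x) ⟨hy, hx⟩ (As (y j.1) k) (by omega)
        have h9 : As (y j.1) k ∉ i.2 := by
          intro h
          have : As (y j.1) k ≤ i.2.sup id := Finset.le_sup (f := id) h
          omega
        have h10 : As (y j.1) k ∉ j.2 := by
          intro h
          have : As (y j.1) k ≤ j.2.sup id := Finset.le_sup (f := id) h
          omega
        have h11 : eg (y j.1) (As (y j.1) k) = 1 := by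
          rw [eg, if_pos ⟨k, rfl⟩]
        simp only [xs, ys, padd, h9, h10, if_false, add_zero, h11, hne] at h8
        have : ∀ a : Fin 2, a ≠ a + 1 := by decide
        exact this _ h8
      · rcases lt_or_gt_of_ne hne with hlt | hlt
        · obtain ⟨x, h4, x', h5, h6, n, hn, h7⟩ := exists_two r'.2 j.1 m
          have h8 := h3 (y, x) ⟨hy, h4⟩ n hn
          have h9 := h3 (y, x') ⟨hy, h5⟩ n hn
          simp only [xs, ys, padd] at h8 h9
          rw [h6 _ hlt, h9] at h8
          exact h7 (add_left_inj2 (add_left_inj2 h8)).symm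
        · obtain ⟨x, h4, x', h5, h6, n, hn, h7⟩ := exists_two r'.2 i.1 m
          have h8 := h3 (y, x) ⟨hy, h4⟩ n hn
          have h9 := h3 (y, x') ⟨hy, h5⟩ n hn
          simp only [xs, ys, padd] at h8 h9
          rw [h6 _ hlt, ← h9] at h8
          exact h7 (add_left_inj2 h8))
  exact ⟨r', h1, fun z hz m => h2 m hz⟩

/-- The number of differences before `L`. -/
def dfs (a b : ℕ → Fin 2) (L : ℕ) : ℕ := ((Finset.range L).filter fun j => a j ≠ b j).card

theorem dfs_unb {a b : ℕ → Fin 2} (h : ∀ m, ∃ n ≥ m, a n ≠ b n) (n : ℕ) :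
    ∃ L, n ≤ dfs a b L := by
  induction n with
  | zero => exact ⟨0, Nat.zero_le _⟩
  | succ n ih =>
    obtain ⟨L, hL⟩ := ih
    obtain ⟨k, hk, hne⟩ := h L
    refine ⟨k + 1, ?_⟩
    refine Nat.succ_le_of_lt (hL.trans_lt ?_)
    apply Finset.card_lt_card
    refine ⟨fun j hj => ?_, fun hsub => ?_⟩
    · simp only [Finset.mem_filter, Finset.mem_range] at hj ⊢
      exact ⟨by omega, hj.2⟩
    · have : k ∈ (Finset.range L).filter fun j => a j ≠ b j :=
        hsub (by simp only [Finset.mem_filter, Finset.mem_range]; exact ⟨by omega, hne⟩)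
      simp only [Finset.mem_filter, Finset.mem_range] at this
      omega

theorem measurable_dfs (i : XI) (j : YI) (L : ℕ) : Measurable fun z => dfs (xs i z) (ys j z) L := by
  have : (fun z => dfs (xs i z) (ys j z) L) = (fun w : (Fin L → Fin 2) × (Fin L → Fin 2) =>
      ((Finset.univ : Finset (Fin L)).filter fun k => w.1 k ≠ w.2 k).card) ∘
      fun z => (fun k => xs i z k.1, fun k => ys j z k.1) := by
    funext z
    simp only [Function.comp, dfs]
    refine Finset.card_bij' (fun k hk => (⟨k, by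
      simp only [Finset.mem_filter, Finset.mem_range] at hk
      exact hk.1⟩ : Fin L)) (fun k _ => k.1) ?_ ?_ ?_ ?_
    · intro k hk
      simp only [Finset.mem_filter, Finset.mem_range] at hk
      simpa using hk.2
    · intro k hk
      simp only [Finset.mem_filter, Finset.mem_univ, true_and] at hk
      simp only [Finset.mem_filter, Finset.mem_range]
      exact ⟨k.2, hk⟩
    · intro k hk; rfl
    · intro k hk; rfl
  rw [this]
  refine (measurable_of_countable _).comp (Measurable.prodMk ?_ ?_)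
  · exact measurable_pi_iff.2 fun k => (measurable_pi_apply k.1).comp (measurable_xs i)
  · exact measurable_pi_iff.2 fun k => (measurable_pi_apply k.1).comp (measurable_ys j)

/-- Every pair is covered. -/
theorem nprod_cov (hC : ConstP) (i : XI) (j : YI) (r : RC) (n : ℕ) :
    ∃ r' ≤ r, ∃ k, ∀ z ∈ rb r', (xr i z, yr j z) ∈ iv2 (cc (Nat.pair n k)) := by
  obtain ⟨r1, h1, h2⟩ := diff_inf hC i j r
  obtain ⟨r2, h3, L, hL⟩ := const_univ hC r1
    (f := fnd fun L => {z | n + 1 ≤ dfs (xs i z) (ys j z) L})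
    (measurable_fnd fun L => measurableSet_le measurable_const (measurable_dfs i j L))
  let ini : PP → List (Fin 2) × List (Fin 2) := fun z =>
    (List.ofFn fun k : Fin L => xs i z k.1, List.ofFn fun k : Fin L => ys j z k.1)
  have hm : Measurable fun z => Encodable.encode (ini z) := by
    have : (fun z => Encodable.encode (ini z)) = (fun w : (Fin L → Fin 2) × (Fin L → Fin 2) =>
        Encodable.encode ((List.ofFn w.1, List.ofFn w.2) : List (Fin 2) × List (Fin 2))) ∘
        fun z => (fun k => xs i z k.1, fun k => ys j z k.1) := rfl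
    rw [this]
    refine (measurable_of_countable _).comp (Measurable.prodMk ?_ ?_)
    · exact measurable_pi_iff.2 fun k => (measurable_pi_apply k.1).comp (measurable_xs i)
    · exact measurable_pi_iff.2 fun k => (measurable_pi_apply k.1).comp (measurable_ys j)
  obtain ⟨r3, h4, k, hk⟩ := const_univ hC r2 hm
  refine ⟨r3, h4.trans (h3.trans h1), k, fun z hz => ?_⟩
  have h5 : n + 1 ≤ dfs (xs i z) (ys j z) L := by
    obtain ⟨L', hL'⟩ := dfs_unb (h2 z (rb_mono (h4.trans h3) hz)) (n + 1)
    have h6 := fnd_spec (P := fun L => {z | n + 1 ≤ dfs (xs i z) (ys j z) L}) (z := z) ⟨L', hL'⟩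
    rw [hL z (rb_mono h4 hz)] at h6
    exact h6
  have h7 := cc_mem' (n := n) (L := L) h5
  rw [xr_eq, yr_eq, ← hk z hz]
  exact h7

/-- Length of the sequence number `k`. -/
def lng (k : ℕ) : ℕ :=
  match (Encodable.decode k : Option (List (Fin 2) × List (Fin 2))) with
  | none => 0
  | some L => L.1.length

/-- P9. -/
theorem nprod (hC : ConstP) (hB : BndP) : NProdStmt := by
  refine ⟨cc, fun i j r n => nprod_cov hC i j r n, fun h hh r => ?_⟩
  obtain ⟨r', h1, b, hb, h2⟩ := dom hB r
    (fun z n => (Finset.range (h z n + 1)).sup lng) (by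
      rw [measurable_pi_iff]
      intro n
      exact (measurable_of_countable fun m : ℕ => (Finset.range (m + 1)).sup lng).comp
        ((measurable_pi_apply n).comp hh))
  refine ⟨r', h1, (⟨b, hb⟩, ∅), .inr (⟨b, hb⟩, ∅), fun z hz n k hk hcon => ?_⟩
  rw [xr_eq, yr_eq] at hcon
  obtain ⟨L, h3, h4⟩ := cc_mem hcon
  have h5 : L.1.length ≤ z.1 b n := by
    refine le_trans ?_ (h2 z hz n)
    have h6 : lng k = L.1.length := by rw [lng, h3]
    rw [← h6]
    exact Finset.le_sup (f := lng) (Finset.mem_range.2 (Nat.lt_succ_of_le hk))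
  have h6 : (Finset.range L.1.length).filter
      (fun k => xs (⟨b, hb⟩, ∅) z k ≠ ys (.inr (⟨b, hb⟩, ∅)) z k) ⊆
      (Finset.range n).image (As (z.1 b)) := by
    intro k hk
    simp only [Finset.mem_filter, Finset.mem_range, xs, ys, padd, Finset.notMem_empty, if_false,
      add_zero] at hk
    rw [Finset.mem_image]
    have h7 : eg (z.1 b) k ≠ 0 := by
      intro h0
      rw [h0, add_zero] at hk
      exact hk.2 rfl
    rw [eg] at h7
    have h8 : ∃ m, As (z.1 b) m = k := by
      by_contra h
      rw [if_neg h] at h7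
      exact h7 rfl
    obtain ⟨m, hm⟩ := h8
    refine ⟨m, ?_, hm⟩
    rw [Finset.mem_range]
    by_contra hmn
    have h9 := (As_strictMono (z.1 b)).monotone (not_lt.1 hmn)
    have h10 : z.1 b n < As (z.1 b) n := by
      rcases n with _ | n
      · simp [As]
      · rw [As_succ]; omega
    omega
  have h7 := (Finset.card_le_card h6).trans Finset.card_image_le
  rw [Finset.card_range] at h7
  omega

end Pool.Agent.Men
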