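import Pool.Agent.Helper98_MEN.Unb

/-!
# Squad MEN, the Menger part: elementary facts about `th`, `As`, `eg`, the next element
-/

open MeasureTheory Set

namespace Pool.Agent.Men

/-! ### The coded infinite set -/

/-- Weight of a node: the last element of the coded set. -/
def wt (τ : Node) : ℕ := τ.sum + τ.length

/-- The least element of the coded set which is at least `n`. -/
noncomputable def nx (t : ℕ → ℕ) (n : ℕ) : ℕ := sInf {a | (∃ k, As t k = a) ∧ n ≤ a}

theorem As_eq_wt (t : Br ℕ) (n : ℕ) : As t n = wt (pre t (n + 1)) := by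
  have : ∀ m, wt (pre t m) = ∑ i ∈ Finset.range m, (t i + 1) := by
    intro m
    induction m with
    | zero => simp [wt]
    | succ m ih =>
      rw [Finset.sum_range_succ, ← ih, pre_succ]
      simp only [wt, List.sum_append, List.sum_cons, List.sum_nil, List.length_append,
        List.length_cons, List.length_nil]
      change _ + (t m + 0) + _ = _
      omega
  rw [this]
  rfl

theorem As_succ (t : ℕ → ℕ) (n : ℕ) : As t (n + 1) = As t n + (t (n + 1) + 1) := by
  simp only [As]
  rw [Finset.sum_range_succ]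

theorem As_strictMono (t : ℕ → ℕ) : StrictMono (As t) :=
  strictMono_nat_of_lt_succ fun n => by rw [As_succ]; omega

theorem le_As (t : ℕ → ℕ) (n : ℕ) : n < As t n := by
  induction n with
  | zero => simp [As]
  | succ n ih => rw [As_succ]; omega

theorem nx_spec (t : ℕ → ℕ) (n : ℕ) : (∃ k, As t k = nx t n) ∧ n ≤ nx t n :=
  Nat.sInf_mem (s := {a | (∃ k, As t k = a) ∧ n ≤ a}) ⟨As t n, ⟨n, rfl⟩, (le_As t n).le⟩

/-- A gap of the coded set after the node `σ`. -/
theorem gap {t : Br ℕ} {σ : Node} {N : ℕ} (h1 : pre t σ.length = σ) (h2 : N ≤ t σ.length) {k : ℕ}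
    (hk : wt σ < As t k) : wt σ + N < As t k := by
  have h3 : σ.length ≤ k := by
    by_contra h
    have h4 : k + 1 ≤ σ.length := by omega
    rw [As_eq_wt] at hk
    have h5 : pre t (k + 1) <+: σ := by
      rw [← h1]
      exact pre_isPrefix t h4
    obtain ⟨l, hl⟩ := h5
    have h6 : wt (pre t (k + 1)) ≤ wt σ := by
      rw [← hl]
      simp only [wt, List.sum_append, List.length_append]
      omega
    omega
  have h4 : As t σ.length ≤ As t k := (As_strictMono t).monotone h3
  have h5 : As t σ.length = wt σ + (t σ.length + 1) := by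
    rw [As_eq_wt, pre_succ, h1]
    simp only [wt, List.sum_append, List.sum_cons, List.sum_nil, List.length_append,
        List.length_cons, List.length_nil]
    change _ + (t σ.length + 0) + _ = _
    omega
  omega

theorem gap_nx {t : Br ℕ} {σ : Node} {N n : ℕ} (h1 : pre t σ.length = σ) (h2 : N ≤ t σ.length)
    (hn : wt σ < n) : wt σ + N < nx t n := by
  obtain ⟨⟨k, hk⟩, h3⟩ := nx_spec t n
  rw [← hk] at h3 ⊢
  exact gap h1 h2 (by omega)

theorem gap_eg {t : Br ℕ} {σ : Node} {N m : ℕ} (h1 : pre t σ.length = σ) (h2 : N ≤ t σ.length)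
    (hm : wt σ < m) (hm' : m ≤ N) : eg t m = 0 := by
  rw [eg, if_neg]
  rintro ⟨k, hk⟩
  have := gap (k := k) h1 h2 (by omega)
  omega

theorem measurable_As (n : ℕ) : Measurable fun t : ℕ → ℕ => As t n := by
  unfold As
  exact Finset.measurable_sum _ fun i _ => (measurable_pi_apply i).add_const 1

theorem measurable_eg : Measurable eg := by
  rw [measurable_pi_iff]
  intro m
  have : MeasurableSet {t : ℕ → ℕ | ∃ n, As t n = m} := by
    have : {t : ℕ → ℕ | ∃ n, As t n = m} = ⋃ n, {t | As t n = m} := by ext t; simp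
    rw [this]
    exact MeasurableSet.iUnion fun n => measurable_As n (measurableSet_singleton m)
  exact Measurable.ite this measurable_const measurable_const

theorem measurable_nx : Measurable nx := by
  classical
  rw [measurable_pi_iff]
  intro n
  apply measurable_to_countable'
  intro a
  have : (fun t => nx t n) ⁻¹' {a} = {t : ℕ → ℕ | (∃ k, As t k = a) ∧ n ≤ a} ∩
      ⋂ b : Fin a, {t : ℕ → ℕ | (∃ k, As t k = b.1) ∧ n ≤ b.1}ᶜ := by
    ext t
    simp only [Set.mem_preimage, Set.mem_singleton_iff, Set.mem_inter_iff, Set.mem_ofPred_eq,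
      Set.mem_iInter, Set.mem_compl_iff]
    constructor
    · intro h
      refine ⟨h ▸ nx_spec t n, fun b hb => ?_⟩
      have : nx t n ≤ b.1 := Nat.sInf_le hb
      omega
    · rintro ⟨h1, h2⟩
      apply le_antisymm
      · exact Nat.sInf_le h1
      · by_contra h
        exact h2 ⟨nx t n, not_le.1 h⟩ (nx_spec t n)
  rw [this]
  have hm : ∀ b, MeasurableSet {t : ℕ → ℕ | (∃ k, As t k = b) ∧ n ≤ b} := by
    intro b
    have : {t : ℕ → ℕ | (∃ k, As t k = b) ∧ n ≤ b} = (⋃ k, {t | As t k = b}) ∩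
        {_t : ℕ → ℕ | n ≤ b} := by
      ext t; simp
    rw [this]
    exact (MeasurableSet.iUnion fun k => measurable_As k (measurableSet_singleton b)).inter
      (MeasurableSet.const _)
  exact (hm a).inter (MeasurableSet.iInter fun b => (hm b.1).compl)

/-! ### The Cantor map -/

theorem th_summable (t : ℕ → Fin 2) : Summable fun n => (2 * ((t n : ℕ) : ℝ)) / 3 ^ (n + 1) := by
  have h1 : Summable fun n : ℕ => (2 : ℝ) * (1 / 3) ^ (n + 1) :=
    ((summable_nat_add_iff 1).2 (summable_geometric_of_lt_one (by norm_num) (by norm_num))).mul_left 2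
  refine Summable.of_nonneg_of_le (fun n => by positivity) (fun n => ?_) h1
  have h2 : ((t n : ℕ) : ℝ) ≤ 1 := by
    have := (t n).isLt
    exact_mod_cast Nat.lt_succ_iff.1 this
  rw [div_eq_mul_one_div, one_div_pow]
  have h3 : (0 : ℝ) < 1 / 3 ^ (n + 1) := by positivity
  nlinarith

/-- Sequences agreeing up to `M` have close images. -/
theorem th_bounds (t : ℕ → Fin 2) (M : ℕ) :
    (∑ n ∈ Finset.range M, (2 * ((t n : ℕ) : ℝ)) / 3 ^ (n + 1)) ≤ th t ∧
    th t ≤ (∑ n ∈ Finset.range M, (2 * ((t n : ℕ) : ℝ)) / 3 ^ (n + 1)) + 1 / 3 ^ M := by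
  have h1 := (th_summable t).sum_add_tsum_nat_add M
  have h2 : 0 ≤ ∑' n, (2 * ((t (n + M) : ℕ) : ℝ)) / 3 ^ (n + M + 1) :=
    tsum_nonneg fun n => by positivity
  have h3 : ∑' n, (2 * ((t (n + M) : ℕ) : ℝ)) / 3 ^ (n + M + 1) ≤ 1 / 3 ^ M := by
    have hs : HasSum (fun n : ℕ => (2 / 3 * (1 / 3) ^ M : ℝ) * (1 / 3) ^ n) (1 / 3 ^ M) := by
      have := (hasSum_geometric_of_lt_one (r := (1 / 3 : ℝ)) (by norm_num) (by norm_num)).mul_left
        (2 / 3 * (1 / 3) ^ M : ℝ)
      have h5 : (2 / 3 * (1 / 3) ^ M : ℝ) * (1 - 1 / 3)⁻¹ = 1 / 3 ^ M := by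
        rw [one_div_pow]
        field_simp
        norm_num
      rwa [h5] at this
    rw [← hs.tsum_eq]
    refine Summable.tsum_le_tsum (fun n => ?_) ((summable_nat_add_iff M).2 (th_summable t))
      hs.summable
    have h2 : ((t (n + M) : ℕ) : ℝ) ≤ 1 := by
      have := (t (n + M)).isLt
      exact_mod_cast Nat.lt_succ_iff.1 this
    have h4 : (2 / 3 * (1 / 3) ^ M : ℝ) * (1 / 3) ^ n = 2 * (1 / 3 ^ (n + M + 1)) := by
      rw [one_div_pow, one_div_pow]
      field_simp
      ring
    rw [h4, div_eq_mul_one_div]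
    have h5 : (0 : ℝ) < 1 / 3 ^ (n + M + 1) := by positivity
    nlinarith
  unfold th
  rw [← h1]
  constructor <;> linarith

theorem th_close {t t' : ℕ → Fin 2} {M : ℕ} (h : ∀ i < M, t i = t' i) :
    |th t - th t'| ≤ 1 / 3 ^ M := by
  have h1 := th_bounds t M
  have h2 := th_bounds t' M
  have h3 : (∑ n ∈ Finset.range M, (2 * ((t n : ℕ) : ℝ)) / 3 ^ (n + 1)) =
      ∑ n ∈ Finset.range M, (2 * ((t' n : ℕ) : ℝ)) / 3 ^ (n + 1) :=
    Finset.sum_congr rfl fun n hn => by rw [h n (Finset.mem_range.1 hn)]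
  rw [abs_le]
  constructor <;> linarith [h1.1, h1.2, h2.1, h2.2]

theorem th_open (t : ℕ → Fin 2) (k : ℕ) (h : th t ∈ iv k) :
    ∃ M, ∀ t' : ℕ → Fin 2, (∀ i < M, t i = t' i) → th t' ∈ iv k := by
  have h1 : IsOpen (iv k) := isOpen_Ioo
  obtain ⟨ε, hε, h2⟩ := Metric.isOpen_iff.1 h1 _ h
  obtain ⟨M, hM⟩ := exists_pow_lt_of_lt_one hε (y := (1 / 3 : ℝ)) (by norm_num)
  refine ⟨M, fun t' ht' => h2 ?_⟩
  rw [Metric.mem_ball, Real.dist_eq, abs_sub_comm]
  refine (th_close ht').trans_lt ?_
  rwa [one_div_pow] at hM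

theorem measurable_th : Measurable th := by
  have h1 : ∀ M : ℕ, Measurable fun t : ℕ → Fin 2 =>
      ∑ n ∈ Finset.range M, (2 * ((t n : ℕ) : ℝ)) / 3 ^ (n + 1) := by
    intro M
    refine Finset.measurable_sum _ fun n _ => ?_
    have : (fun t : ℕ → Fin 2 => (2 * ((t n : ℕ) : ℝ)) / 3 ^ (n + 1)) =
        (fun a : Fin 2 => (2 * ((a : ℕ) : ℝ)) / 3 ^ (n + 1)) ∘ fun t => t n := rfl
    rw [this]
    exact (measurable_of_countable _).comp (measurable_pi_apply n)
  refine measurable_of_tendsto_metrizable h1 ?_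
  rw [tendsto_pi_nhds]
  intro t
  exact (th_summable t).hasSum.tendsto_sum_nat

theorem measurable_padd (F : Finset ℕ) : Measurable fun t : ℕ → Fin 2 => padd t F := by
  rw [measurable_pi_iff]
  intro n
  have : (fun t : ℕ → Fin 2 => padd t F n) =
      (fun a : Fin 2 => a + if n ∈ F then 1 else 0) ∘ fun t => t n := rfl
  rw [this]
  exact (measurable_of_countable _).comp (measurable_pi_apply n)

theorem measurableSet_iv (k : ℕ) : MeasurableSet (iv k) := measurableSet_Ioo

end Pool.Agent.Men
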