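import Pool.Agent.Helper98_MEN.Basic

/-!
# Squad MEN, the Menger part: changing one coordinate, stems
-/

open MeasureTheory Set

namespace Pool.Agent.Men

/-! ### Dependence on countably many coordinates -/

open Classical in
theorem depOn_inter {D I : Type} {C J : Set I} {A : Set (Pt D I)} (h1 : DepOn C A)
    (h2 : DepOn J A) : DepOn (C ∩ J) A := by
  intro y y' h
  let z : Pt D I := fun i => if i ∈ J then y i else y' i
  have h3 := h2 y z fun i hi => by simp [z, hi]
  have h4 := h1 z y' fun i hi => by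
    by_cases hi' : i ∈ J
    · simp only [z, hi', if_true]; exact h i ⟨hi, hi'⟩
    · simp [z, hi']
  exact h3.trans h4

theorem exists_depFun_of_sep {D I : Type} [MeasurableSpace D] {β κ : Type} [Countable κ]
    (f : Pt D I → β) (A : κ → Set (Pt D I)) (hA : ∀ k, MeasurableSet (A k))
    (hsep : ∀ y y', (∀ k, y ∈ A k ↔ y' ∈ A k) → f y = f y') {J : Set I}
    (hJ : ∀ k, DepOn J (A k)) :
    ∃ C : Set I, C.Countable ∧ C ⊆ J ∧ DepFun C f := by
  choose C hC hd using fun k => exists_countable_depOn (hA k)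
  refine ⟨⋃ k, C k ∩ J, Set.countable_iUnion fun k => (hC k).mono Set.inter_subset_left,
    Set.iUnion_subset fun k => Set.inter_subset_right, ?_⟩
  intro y y' h
  apply hsep
  intro k
  exact depOn_inter (hd k) (hJ k) y y' fun i hi => h i (Set.mem_iUnion.2 ⟨k, hi⟩)

theorem exists_depFun_tree {D I : Type} [MeasurableSpace D] {T : Pt D I → Set Node}
    (hT : Measurable T) {J : Set I} (hJ : DepFun J T) :
    ∃ C : Set I, C.Countable ∧ C ⊆ J ∧ DepFun C T := by
  apply exists_depFun_of_sep (κ := Node) T (fun σ => {y | σ ∈ T y})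
    (fun σ => hT (measurableSet_mem_node σ))
  · intro y y' h
    ext σ
    exact h σ
  · intro σ y y' h
    simp only [Set.mem_ofPred_eq]
    rw [hJ y y' h]

/-! ### Changing one coordinate -/

open Classical in
/-- G0a. -/
theorem glue3 (g : Ix) (r p : Cond ℕ Ix) (T : Pt ℕ Ix → Set Node) (hr : r.Below (Set.Iio g))
    (hrp : r ≤ p.restr (Set.Iio g)) (hS : ∀ y ∈ r.body, Supf (T y)) (hT : Measurable T)
    (hd : DepFun (Set.Iio g) T) (hsub : ∀ y ∈ r.body, T y ⊆ p.T g y) :
    ∃ p' ≤ p, p' ≤ r ∧ (∀ i < g, ∀ y, p'.T i y = r.T i y) ∧ (∀ y ∈ r.body, p'.T g y = T y) ∧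
      (∀ i > g, ∀ y, p'.T i y = p.T i y) ∧ (∀ i > g, (i ∈ p'.S ↔ i ∈ p.S)) := by
  obtain ⟨C, hC, hCg, hCd⟩ := exists_depFun_tree hT hd
  have hrd : DepOn (Set.Iio g) r.body := hr.depOn (isLowerSet_Iio g)
  obtain ⟨C', hC', hC'd⟩ := exists_countable_depOn r.measurableSet_body
  have hC'd' := depOn_inter hC'd hrd
  let p' : Cond ℕ Ix :=
    { T := fun i y => if i < g then r.T i y else if i = g then
        (if y ∈ r.body then T y else Set.univ) else p.T i y
      S := (r.S ∩ Set.Iio g) ∪ p.S ∪ {g} ∪ C ∪ (C' ∩ Set.Iio g)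
      good := by
        intro i y
        split_ifs with h1 h2 h3
        · exact r.good i y
        · exact hS y h3
        · exact supf_univ
        · exact p.good i y
      scount := ((((r.scount.mono Set.inter_subset_left).union p.scount).union
        (Set.countable_singleton g)).union hC).union (hC'.mono Set.inter_subset_left)
      full' := by
        intro i hi y
        simp only [Set.mem_union, Set.mem_inter_iff, Set.mem_Iio, Set.mem_singleton_iff,
          not_or, not_and] at hi
        obtain ⟨⟨⟨⟨h1, h2⟩, h3⟩, _⟩, _⟩ := hi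
        by_cases h4 : i < g
        · simp only [h4, if_true]
          exact r.full' i (fun h => h1 h h4) y
        · simp only [h4, if_false, h3]
          exact p.full' i h2 y
      dep := by
        intro i y y' h
        by_cases h4 : i < g
        · simp only [h4, if_true]
          exact r.dep i y y' fun j hj hji =>
            h j (Or.inl (Or.inl (Or.inl (Or.inl ⟨hj, hji.trans h4⟩)))) hji
        · simp only [h4, if_false]
          by_cases h5 : i = g
          · simp only [h5, if_true]
            have h6 : (y ∈ r.body) ↔ (y' ∈ r.body) := hC'd' y y' fun j hj =>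
              h j (Or.inr hj) (by rw [h5]; exact hj.2)
            have h7 : T y = T y' := hCd y y' fun j hj =>
              h j (Or.inl (Or.inr hj)) (by rw [h5]; exact hCg hj)
            simp only [h6, h7]
          · simp only [h5, if_false]
            exact p.dep i y y' fun j hj hji =>
              h j (Or.inl (Or.inl (Or.inl (Or.inr hj)))) hji
      meas := by
        intro i
        by_cases h4 : i < g
        · simpa only [h4, if_true] using r.meas i
        · simp only [h4, if_false]
          by_cases h5 : i = g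
          · simp only [h5, if_true]
            exact Measurable.ite r.measurableSet_body hT measurable_const
          · simpa only [h5, if_false] using p.meas i }
  have hT1 : ∀ i < g, ∀ y, p'.T i y = r.T i y := fun i hi y => by simp [p', hi]
  have hT2 : ∀ y ∈ r.body, p'.T g y = T y := fun y hy => by simp [p', hy]
  have hT3 : ∀ i > g, ∀ y, p'.T i y = p.T i y := fun i hi y => by
    have h1 : ¬ i < g := not_lt.2 hi.le
    have h2 : i ≠ g := hi.ne'
    simp [p', h1, h2]
  have hle : p' ≤ r := by
    intro y hy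
    rw [hr.body_eq]
    intro i hi
    have := hy i
    rwa [hT1 i hi] at this
  refine ⟨p', ?_, hle, hT1, hT2, hT3, ?_⟩
  · intro y hy i
    have hyr := hle hy
    rcases lt_trichotomy i g with hi | hi | hi
    · have h1 := hrp hyr
      rw [Cond.restr_body] at h1
      exact h1 i hi
    · subst hi
      have := hy i
      rw [hT2 y hyr] at this
      exact body_mono (hsub y hyr) this
    · have := hy i
      rwa [hT3 i hi] at this
  · intro i hi
    simp only [p', Set.mem_union, Set.mem_inter_iff, Set.mem_Iio, Set.mem_singleton_iff]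
    constructor
    · rintro ((((⟨_, h⟩ | h) | h) | h) | ⟨_, h⟩)
      · exact absurd h (not_lt.2 hi.le)
      · exact h
      · exact absurd h hi.ne'
      · exact absurd (hCg h) (not_lt.2 hi.le)
      · exact absurd h (not_lt.2 hi.le)
    · exact fun h => Or.inl (Or.inl (Or.inl (Or.inr h)))

/-! ### Stems -/

/-- `σ` is a splitting node of `T`. -/
def Spl (T : Set Node) (σ : Node) : Prop := σ ∈ T ∧ {a | σ ++ [a] ∈ T}.Infinite

theorem measurableSet_spl (σ : Node) : MeasurableSet {T : Set Node | Spl T σ} :=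
  (measurableSet_mem_node σ).inter (measurableSet_infinite_succ σ)

theorem Supf.exists_spl {T : Set Node} (h : Supf T) (m : ℕ) :
    ∃ σ, Spl T σ ∧ m ≤ σ.length := by
  induction m with
  | zero =>
    obtain ⟨τ, h1, _, h2⟩ := h.split [] h.nil
    exact ⟨τ, ⟨h1, h2⟩, Nat.zero_le _⟩
  | succ m ih =>
    obtain ⟨σ, ⟨h1, h2⟩, h3⟩ := ih
    obtain ⟨a, ha⟩ := h2.nonempty
    obtain ⟨τ, h4, h5, h6⟩ := h.split _ ha
    refine ⟨τ, ⟨h4, h6⟩, ?_⟩
    have := h5.length_le
    simp at this
    omega

/-- The restriction of a condition to the coordinates below `g`, as far as the tree at `g` is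
concerned, depends only on the coordinates below `g`. -/
theorem depFun_T (p : Cond ℕ Ix) (g : Ix) : DepFun (Set.Iio g) (p.T g) :=
  fun _ _ h => p.T_congr fun j hj => h j hj

open Classical in
/-- G0b: a constant long splitting stem. -/
theorem stem (hC : ConstP) (g : Ix) (p : Cond ℕ Ix) (q : Cond (Fin 2) Ix) (m : ℕ) :
    ∃ r : Cond ℕ Ix, r.Below (Set.Iio g) ∧ r ≤ p.restr (Set.Iio g) ∧ ∃ q' ≤ q, ∃ σ : Node,
      m ≤ σ.length ∧ ∀ y ∈ r.body, Spl (p.T g y) σ := by
  have hex : ∀ y, ∃ n : ℕ, ∃ σ : Node, Encodable.encode σ = n ∧ Spl (p.T g y) σ ∧ m ≤ σ.length := by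
    intro y
    obtain ⟨σ, h1, h2⟩ := Supf.exists_spl (p.good g y) m
    exact ⟨_, σ, rfl, h1, h2⟩
  let f : PP → ℕ := fun z => Nat.find (hex z.1)
  have hf : Measurable f := by
    apply measurable_to_countable'
    intro n
    have hA : ∀ k, MeasurableSet {z : PP | ∃ σ : Node, Encodable.encode σ = k ∧
        Spl (p.T g z.1) σ ∧ m ≤ σ.length} := by
      intro k
      have : {z : PP | ∃ σ : Node, Encodable.encode σ = k ∧ Spl (p.T g z.1) σ ∧ m ≤ σ.length} =
          ⋃ σ : {σ : Node // Encodable.encode σ = k ∧ m ≤ σ.length},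
            {z : PP | Spl (p.T g z.1) σ.1} := by
        ext z
        simp only [Set.mem_ofPred_eq, Set.mem_iUnion]
        constructor
        · rintro ⟨σ, h1, h2, h3⟩
          exact ⟨⟨σ, h1, h3⟩, h2⟩
        · rintro ⟨⟨σ, h1, h3⟩, h2⟩
          exact ⟨σ, h1, h2, h3⟩
      rw [this]
      exact MeasurableSet.iUnion fun σ =>
        ((p.meas g).comp measurable_fst) (measurableSet_spl σ.1)
    have : f ⁻¹' {n} = {z : PP | ∃ σ : Node, Encodable.encode σ = n ∧
        Spl (p.T g z.1) σ ∧ m ≤ σ.length} ∩ ⋂ k : Fin n, {z : PP | ∃ σ : Node,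
          Encodable.encode σ = k.1 ∧ Spl (p.T g z.1) σ ∧ m ≤ σ.length}ᶜ := by
      ext z
      simp only [Set.mem_preimage, Set.mem_singleton_iff, Set.mem_inter_iff, Set.mem_iInter,
        Set.mem_compl_iff, f]
      rw [Nat.find_eq_iff]
      constructor
      · rintro ⟨h1, h2⟩
        exact ⟨h1, fun k => h2 k.1 k.2⟩
      · rintro ⟨h1, h2⟩
        exact ⟨h1, fun k hk => h2 ⟨k, hk⟩⟩
    rw [this]
    exact (hA n).inter (MeasurableSet.iInter fun k => (hA k.1).compl)
  obtain ⟨r, h1, h2, q', hq, c, hc⟩ := hC (Set.Iio g) (isLowerSet_Iio g) p q f hf (by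
    intro y y' x h
    have h3 : p.T g y = p.T g y' := depFun_T p g y y' h
    simp only [f, h3])
  obtain ⟨x, hx⟩ := q'.body_nonempty
  obtain ⟨y0, hy0⟩ := r.body_nonempty
  have h3 : ∀ y ∈ r.body, ∃ σ : Node, Encodable.encode σ = c ∧ Spl (p.T g y) σ ∧ m ≤ σ.length := by
    intro y hy
    have h4 := hc (y, x) ⟨hy, hx⟩
    have h5 := Nat.find_spec (hex y)
    simp only [f] at h4
    rwa [h4] at h5
  obtain ⟨σ, h4, h5, h6⟩ := h3 y0 hy0
  refine ⟨r, h1, h2, q', hq, σ, h6, fun y hy => ?_⟩
  obtain ⟨τ, h7, h8, _⟩ := h3 y hy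
  have : τ = σ := Encodable.encode_injective (h7.trans h4.symm)
  exact this ▸ h8

/-- The nodes of `T` compatible with `σ` whose digit after `σ` is at least `N`. -/
def jmp (T : Set Node) (σ : Node) (N : ℕ) : Set Node :=
  {τ | τ ∈ sub T σ ∧ ∀ a, σ ++ [a] <+: τ → N ≤ a}

theorem supf_jmp {T : Set Node} (hT : Supf T) {σ : Node} (hσ : Spl T σ) (N : ℕ) :
    Supf (jmp T σ N) := by
  have hsub := hT.sub hσ.1
  refine ⟨⟨hsub.nil, fun a h => ?_⟩, ?_, ?_⟩
  · have := h.length_le
    simp at this
  · rintro τ a ⟨h1, h2⟩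
    refine ⟨hsub.down _ _ h1, fun b hb => h2 b (hb.trans (List.prefix_append _ _))⟩
  · rintro τ ⟨h1, h2⟩
    rcases h1.2 with h3 | h3
    · -- τ is an initial segment of σ
      refine ⟨σ, ⟨⟨hσ.1, Or.inl List.prefix_rfl⟩, fun a h => ?_⟩, h3, ?_⟩
      · have := h.length_le
        simp at this
      · have : {a | σ ++ [a] ∈ T} \ Set.Iio N ⊆ {a | σ ++ [a] ∈ jmp T σ N} := by
          rintro a ⟨ha, hN⟩
          refine ⟨⟨ha, Or.inr (List.prefix_append _ _)⟩, fun b hb => ?_⟩
          have := List.IsPrefix.eq_of_length hb (by simp)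
          have h5 : [b] = [a] := List.append_cancel_left this
          simp only [List.cons.injEq, and_true] at h5
          rw [h5]
          exact not_lt.1 hN
        exact (hσ.2.sdiff (Set.finite_Iio N)).mono this
    · by_cases h4 : τ = σ
      · subst h4
        refine ⟨τ, ⟨h1, h2⟩, List.prefix_rfl, ?_⟩
        have : {a | τ ++ [a] ∈ T} \ Set.Iio N ⊆ {a | τ ++ [a] ∈ jmp T τ N} := by
          rintro a ⟨ha, hN⟩
          refine ⟨⟨ha, Or.inr (List.prefix_append _ _)⟩, fun b hb => ?_⟩
          have := List.IsPrefix.eq_of_length hb (by simp)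
          have h5 : [b] = [a] := List.append_cancel_left this
          simp only [List.cons.injEq, and_true] at h5
          rw [h5]
          exact not_lt.1 hN
        exact (hσ.2.sdiff (Set.finite_Iio N)).mono this
      · -- τ properly extends σ
        obtain ⟨l, rfl⟩ := h3
        cases l with
        | nil => simp at h4
        | cons a l =>
          have hpre : σ ++ [a] <+: σ ++ (a :: l) := ⟨l, by simp⟩
          have haN : N ≤ a := h2 a hpre
          obtain ⟨ρ, h5, h6, h7⟩ := hT.split _ h1.1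
          have hstay : ∀ ρ', ρ' ∈ T → σ ++ (a :: l) <+: ρ' → ρ' ∈ jmp T σ N := by
            intro ρ' hρ' hpre'
            refine ⟨⟨hρ', Or.inr ((List.prefix_append _ _).trans hpre')⟩, fun b hb => ?_⟩
            have h8 : σ ++ [a] <+: ρ' := hpre.trans hpre'
            have h9 := List.prefix_of_prefix_length_le hb h8 (by simp)
            have := List.IsPrefix.eq_of_length h9 (by simp)
            have h5 : [b] = [a] := List.append_cancel_left this
            simp only [List.cons.injEq, and_true] at h5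
            rw [h5]
            exact haN
          refine ⟨ρ, hstay ρ h5 h6, h6, h7.mono ?_⟩
          intro b hb
          exact hstay _ hb (h6.trans (List.prefix_append _ _))

theorem measurable_jmp {Ω : Type*} [MeasurableSpace Ω] {T : Ω → Set Node} (hT : Measurable T)
    (σ : Node) {N : Ω → ℕ} (hN : Measurable N) : Measurable fun ω => jmp (T ω) σ (N ω) := by
  apply measurable_setNode
  intro τ
  have : {ω | τ ∈ jmp (T ω) σ (N ω)} = {ω | τ ∈ sub (T ω) σ} ∩
      ⋂ a : {a : ℕ // σ ++ [a] <+: τ}, {ω | N ω ≤ a.1} := by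
    ext ω
    simp only [jmp, Set.mem_ofPred_eq, Set.mem_inter_iff, Set.mem_iInter, Subtype.forall]
  rw [this]
  refine (measurable_sub measurable_const hT (measurableSet_mem_node τ)).inter
    (MeasurableSet.iInter fun a => measurableSet_le hN measurable_const)

theorem body_jmp {T : Set Node} {σ : Node} {N : ℕ} {t : Br ℕ} (h : t ∈ body ℕ (jmp T σ N)) :
    pre t σ.length = σ ∧ N ≤ t σ.length := by
  have h1 : t ∈ body ℕ (sub T σ) := fun m => (h m).1
  rw [mem_body_sub] at h1
  refine ⟨h1.2, ?_⟩
  have h2 := (h (σ.length + 1)).2 (t σ.length)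
  apply h2
  rw [pre_succ, h1.2]
  exact List.prefix_rfl

/-- G0c: a splitting stem can be continued with a digit which is at least `N y`. -/
theorem jump (g : Ix) (r p : Cond ℕ Ix) (σ : Node) (N : Pt ℕ Ix → ℕ) (hN : Measurable N)
    (hNd : DepFun (Set.Iio g) N) (hr : r.Below (Set.Iio g))
    (hrp : r ≤ p.restr (Set.Iio g)) (hσ : ∀ y ∈ r.body, Spl (p.T g y) σ) :
    ∃ p' ≤ p, p' ≤ r ∧ (∀ i < g, ∀ y, p'.T i y = r.T i y) ∧ (∀ i > g, ∀ y, p'.T i y = p.T i y) ∧
      (∀ i > g, (i ∈ p'.S ↔ i ∈ p.S)) ∧
      ∀ y ∈ p'.body, pre (y g) σ.length = σ ∧ N y ≤ y g σ.length := by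
  obtain ⟨p', h1, h2, h3, h4, h5, h6⟩ := glue3 g r p (fun y => jmp (p.T g y) σ (N y)) hr hrp
    (fun y hy => supf_jmp (p.good g y) (hσ y hy) _) (measurable_jmp (p.meas g) σ hN)
    (fun y y' h => by
      have h7 := depFun_T p g y y' h
      have h8 := hNd y y' h
      simp only [h7, h8])
    (fun y _ τ hτ => hτ.1.1)
  refine ⟨p', h1, h2, h3, h5, h6, fun y hy => ?_⟩
  have h7 := hy g
  rw [h4 y (h2 hy)] at h7
  exact body_jmp h7

end Pool.Agent.Men
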