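import Pool.Agent.Helper98_MEN.Stem
import Pool.Agent.Helper92_FL.R8

/-!
# Squad MEN, the Menger part: the Miller reals are unbounded and dominating
-/

open MeasureTheory Set

namespace Pool.Agent.Men

/-- Restricting a glued pair: the pair `(r, q')` with the old condition glued above. -/
theorem stem_glue (hC : ConstP) (g : Ix) (c : RC) (m : ℕ) :
    ∃ c' ≤ c, (∀ i, i ∉ Set.Iio g → ∀ y, c'.1.T i y = c.1.T i y) ∧ ∃ σ : Node, m ≤ σ.length ∧
      ∀ y ∈ (c'.1.restr (Set.Iio g)).body, Spl (c'.1.T g y) σ := by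
  obtain ⟨r, h1, h2, q', hq, σ, hσ, hs⟩ := stem hC g c.1 c.2 m
  refine ⟨(Cond.glue r c.1 (Set.Iio g), q'), ⟨Cond.glue_le_right h1 h2, hq⟩,
    fun i hi y => Cond.glue_T' _ _ hi y, σ, hσ, fun y hy => ?_⟩
  simp only
  rw [Cond.glue_T' _ _ (by simp)]
  exact hs y (Cond.glue_restr_le h1 hy)

/-- G1: the Miller real at `g` is not dominated by functions depending on `y` below `g` and
on `x`. -/
theorem unb (hC : ConstP) (g : Ix) (c : RC) (f : PP → ℕ → ℕ) (hf : Measurable f)
    (hd : DepY (Set.Iio g) f) (m : ℕ) :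
    ∃ c' ≤ c, ∃ n ≥ m, ∀ z ∈ rb c', f z n < z.1 g n := by
  obtain ⟨c1, h1, h2, σ, hσ, hs⟩ := stem_glue hC g c m
  obtain ⟨r, h3, h4, q', hq, N, hN⟩ := hC (Set.Iio g) (isLowerSet_Iio g) c1.1 c1.2
    (fun z => f z σ.length) ((measurable_pi_apply _).comp hf)
    (fun y y' x h => congrFun (hd y y' x h) _)
  obtain ⟨p', h5, h6, -, -, -, h7⟩ := jump g r c1.1 σ (fun _ => N + 1) measurable_const
    (fun _ _ _ => rfl) h3 h4 (fun y hy => hs y (h4 hy))
  refine ⟨(p', q'), ⟨h5.trans h1.1, hq.trans h1.2⟩, σ.length, hσ, fun z hz => ?_⟩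
  have h8 : f z σ.length = N := hN z ⟨h6 hz.1, hz.2⟩
  have h9 := (h7 z.1 hz.1).2
  omega

/-! ### Indices -/

theorem exists_bound (S : Set Ix) (hS : S.Countable) : ∃ b : Ix, ∀ s ∈ S, s < b := by
  have : Countable S := hS
  obtain ⟨b, hb⟩ := Pool.Agent.FL.r8.1 S
    ((Cardinal.mk_le_aleph0).trans Cardinal.aleph0_le_continuum) (fun s => s.1)
  exact ⟨b, fun s hs => hb ⟨s, hs⟩⟩

theorem exists_covBy (a : Ix) : ∃ b : Ix, a ⋖ b := by
  obtain ⟨b0, hb0⟩ := exists_bound {a} (Set.countable_singleton a)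
  have hne : {b : Ix | a < b}.Nonempty := ⟨b0, hb0 a rfl⟩
  refine ⟨(wellFounded_lt (α := Ix)).min _ hne, (wellFounded_lt (α := Ix)).min_mem _ hne, ?_⟩
  intro c hc hc'
  exact (wellFounded_lt (α := Ix)).not_lt_min {b : Ix | a < b} hc hc'

theorem par_covBy {a b : Ix} (h : a ⋖ b) : par b = !par a := by
  have hex : ∃ a : Ix, a ⋖ b := ⟨a, h⟩
  have key : par b = !(par hex.choose) := by
    unfold par
    rw [(wellFounded_lt (α := Ix)).fix_eq, dif_pos hex]
  rw [key, hex.choose_spec.unique_left h]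

/-- Strict upper bounds of countable sets, of both parities. -/
theorem exists_par (S : Set Ix) (hS : S.Countable) (v : Bool) :
    ∃ b : Ix, (∀ s ∈ S, s < b) ∧ par b = v := by
  obtain ⟨b0, hb0⟩ := exists_bound S hS
  by_cases h : par b0 = v
  · exact ⟨b0, hb0, h⟩
  · obtain ⟨b1, hb1⟩ := exists_covBy b0
    refine ⟨b1, fun s hs => (hb0 s hs).trans hb1.lt, ?_⟩
    rw [par_covBy hb1]
    cases hp : par b0 <;> cases v <;> simp_all

/-! ### Dependence of measurable functions on countably many coordinates -/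

theorem exists_depFun_seq {D I : Type} [MeasurableSpace D] {f : Pt D I → ℕ → ℕ}
    (hf : Measurable f) {J : Set I} (hJ : DepFun J f) :
    ∃ C : Set I, C.Countable ∧ C ⊆ J ∧ DepFun C f := by
  apply exists_depFun_of_sep (κ := ℕ × ℕ) f (fun k => {y | f y k.1 = k.2})
    (fun k => (measurable_pi_apply k.1).comp hf (measurableSet_singleton k.2))
  · intro y y' h
    funext n
    exact ((h (n, f y n)).1 rfl).symm
  · intro k y y' h
    simp only [Set.mem_ofPred_eq]
    rw [hJ y y' h]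

/-! ### Dominating reals -/

/-- The sequences above `h`. -/
def domT (h : ℕ → ℕ) : Set Node := {τ | ∀ (i : ℕ) (hi : i < τ.length), h i ≤ τ[i]}

theorem mem_domT_append {h : ℕ → ℕ} {τ : Node} {a : ℕ} :
    τ ++ [a] ∈ domT h ↔ τ ∈ domT h ∧ h τ.length ≤ a := by
  constructor
  · intro h1
    refine ⟨fun i hi => ?_, ?_⟩
    · have := h1 i (by simp; omega)
      rwa [List.getElem_append_left hi] at this
    · have := h1 τ.length (by simp)
      simpa using this
  · rintro ⟨h1, h2⟩ i hi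
    by_cases h3 : i < τ.length
    · rw [List.getElem_append_left h3]
      exact h1 i h3
    · have h4 : i = τ.length := by simp at hi; omega
      subst h4
      simpa using h2

theorem supf_domT (h : ℕ → ℕ) : Supf (domT h) := by
  refine ⟨fun i hi => by simp at hi, fun τ a h1 => (mem_domT_append.1 h1).1, fun τ hτ => ?_⟩
  refine ⟨τ, hτ, List.prefix_rfl, ?_⟩
  have : Set.univ \ Set.Iio (h τ.length) ⊆ {a | τ ++ [a] ∈ domT h} := by
    rintro a ⟨_, ha⟩
    exact mem_domT_append.2 ⟨hτ, not_lt.1 ha⟩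
  exact (Set.infinite_univ.sdiff (Set.finite_Iio _)).mono this

theorem measurable_domT {Ω : Type*} [MeasurableSpace Ω] {h : Ω → ℕ → ℕ} (hh : Measurable h) :
    Measurable fun ω => domT (h ω) := by
  apply measurable_setNode
  intro τ
  have : {ω | τ ∈ domT (h ω)} = ⋂ i : Fin τ.length, {ω | h ω i.1 ≤ τ[i.1]} := by
    ext ω
    simp only [domT, Set.mem_ofPred_eq, Set.mem_iInter]
    exact ⟨fun h1 i => h1 i.1 i.2, fun h1 i hi => h1 ⟨i, hi⟩⟩
  rw [this]
  exact MeasurableSet.iInter fun i =>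
    measurableSet_le ((measurable_pi_apply i.1).comp hh) measurable_const

/-- G2: for every function there is a Miller coordinate, as far away as we want, dominating it. -/
theorem dom (hB : BndP) (c : RC) (h : PP → ℕ → ℕ) (hh : Measurable h) :
    ∃ c' ≤ c, ∃ b, par b = true ∧ ∀ z ∈ rb c', ∀ n, h z n ≤ z.1 b n := by
  obtain ⟨r, -, hr, q', hq, h', hm, -, hb⟩ := hB Set.univ (fun _ _ _ _ => trivial) c.1 c.2 h hh
    (fun y y' x h => by rw [funext fun i => h i trivial])
  have hr' : r ≤ c.1 := by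
    intro y hy
    have := hr hy
    rwa [Cond.restr_body, Cond.on_univ] at this
  obtain ⟨C, hC, -, hCd⟩ := exists_depFun_seq hm (J := Set.univ)
    (fun y y' h => by rw [funext fun i => h i trivial])
  obtain ⟨b, hb1, hb2⟩ := exists_par (C ∪ r.S) (hC.union r.scount) true
  have hfull : ∀ y, r.T b y = Set.univ := fun y =>
    r.full' b (fun h => lt_irrefl _ (hb1 b (Or.inr h))) y
  obtain ⟨p', h1, h2, -, h4, -, -⟩ := glue3 b (r.restr (Set.Iio b)) r (fun y => domT (h' y))
    (r.restr_below _) le_rfl (fun y _ => supf_domT _) (measurable_domT hm)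
    (fun y y' h => by
      simp only
      rw [hCd y y' fun i hi => h i (hb1 i (Or.inl hi))])
    (fun y _ => by rw [hfull y]; exact Set.subset_univ _)
  refine ⟨(p', q'), ⟨h1.trans hr', hq⟩, b, hb2, fun z hz n => ?_⟩
  have h5 := hz.1 b (n + 1)
  rw [h4 z.1 (h2 hz.1)] at h5
  have h6 := h5 n (by simp)
  rw [getElem_pre] at h6
  exact (hb z ⟨h1 hz.1, hz.2⟩ n).trans h6

/-- P6. -/
theorem domStmt (hB : BndP) : DomStmt := by
  intro h hh r
  obtain ⟨c', h1, b, -, h2⟩ := dom hB r h hh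
  exact ⟨c', h1, b, h2⟩

end Pool.Agent.Men
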