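import Pool.Agent.Helper98_MEN.Real

/-!
# Squad MEN, the Menger part: the sets `X` and `Y` are Menger
-/

open MeasureTheory Set

namespace Pool.Agent.Men

/-! ### Countable supports of measurable functions on `PP` -/

/-- The sets which depend on countably many coordinates. -/
@[instance_reducible] def cpAlg : MeasurableSpace PP where
  MeasurableSet' A := ∃ C : Set Ix, C.Countable ∧ DepP C (fun z => z ∈ A)
  measurableSet_empty := ⟨∅, countable_empty, fun _ _ _ _ => rfl⟩
  measurableSet_compl := by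
    rintro A ⟨C, hC, h⟩
    exact ⟨C, hC, fun z z' h1 h2 => congrArg Not (h z z' h1 h2)⟩
  measurableSet_iUnion := by
    intro A hA
    choose C hC h using hA
    refine ⟨⋃ n, C n, countable_iUnion hC, fun z z' h1 h2 => ?_⟩
    have : ∀ n, (z ∈ A n) = (z' ∈ A n) := fun n => h n z z'
      (fun i hi => h1 i (mem_iUnion.2 ⟨n, hi⟩)) (fun i hi => h2 i (mem_iUnion.2 ⟨n, hi⟩))
    simp only [Set.mem_iUnion, this]

theorem le_cpAlg : (inferInstance : MeasurableSpace PP) ≤ cpAlg := by
  change MeasurableSpace.comap Prod.fst MeasurableSpace.pi ⊔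
      MeasurableSpace.comap Prod.snd MeasurableSpace.pi ≤ cpAlg
  refine sup_le ?_ ?_
  · rw [← measurable_iff_comap_le]
    refine (@measurable_pi_iff PP Ix (fun _ => Br ℕ) cpAlg _ _).2 fun i => ?_
    intro A _
    refine ⟨{i}, countable_singleton i, fun z z' h1 h2 => ?_⟩
    change (z.1 i ∈ A) = (z'.1 i ∈ A)
    rw [h1 i rfl]
  · rw [← measurable_iff_comap_le]
    refine (@measurable_pi_iff PP Ix (fun _ => Br (Fin 2)) cpAlg _ _).2 fun i => ?_
    intro A _
    refine ⟨{i}, countable_singleton i, fun z z' h1 h2 => ?_⟩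
    change (z.2 i ∈ A) = (z'.2 i ∈ A)
    rw [h2 i rfl]

theorem exists_depP {A : Set PP} (hA : MeasurableSet A) :
    ∃ C : Set Ix, C.Countable ∧ DepP C (fun z => z ∈ A) := le_cpAlg _ hA

open Classical in
theorem depP_inter {C J : Set Ix} {β : Type*} {f : PP → β} (h1 : DepP C f) (h2 : DepP J f) :
    DepP (C ∩ J) f := by
  intro z z' h3 h4
  let w : PP := (fun i => if i ∈ J then z.1 i else z'.1 i, fun i => if i ∈ J then z.2 i else z'.2 i)
  have h5 := h2 z w (fun i hi => by simp [w, hi]) (fun i hi => by simp [w, hi])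
  have h6 := h1 w z' (fun i hi => by
    by_cases hi' : i ∈ J
    · simp only [w, hi', if_true]; exact h3 i ⟨hi, hi'⟩
    · simp [w, hi']) (fun i hi => by
    by_cases hi' : i ∈ J
    · simp only [w, hi', if_true]; exact h4 i ⟨hi, hi'⟩
    · simp [w, hi'])
  exact h5.trans h6

theorem DepP.mono {β : Type*} {J J' : Set Ix} (h : J ⊆ J') {f : PP → β} (hf : DepP J f) :
    DepP J' f := fun z z' h1 h2 => hf z z' (fun i hi => h1 i (h hi)) fun i hi => h2 i (h hi)

theorem DepP.comp {β γ : Type*} {J : Set Ix} {f : PP → β} (hf : DepP J f) (g : β → γ) :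
    DepP J (fun z => g (f z)) := fun z z' h1 h2 => congrArg g (hf z z' h1 h2)

theorem exists_depP_seq {f : PP → ℕ → ℕ} (hf : Measurable f) :
    ∃ C : Set Ix, C.Countable ∧ DepP C f := by
  choose C hC hd using fun k : ℕ × ℕ => exists_depP
    (A := {z | f z k.1 = k.2}) ((measurable_pi_apply k.1).comp hf (measurableSet_singleton k.2))
  refine ⟨⋃ k, C k, countable_iUnion hC, fun z z' h1 h2 => ?_⟩
  funext n
  have := hd (n, f z' n) z z' (fun i hi => h1 i (mem_iUnion.2 ⟨_, hi⟩))
    (fun i hi => h2 i (mem_iUnion.2 ⟨_, hi⟩))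
  simp only [Set.mem_ofPred_eq, eq_iff_iff] at this
  exact this.2 trivial

/-! ### Covering sets -/

/-- The point `u` is covered by the cover number `n` of the code `c`. -/
def cov (c : ℕ → ℕ) (n : ℕ) : Set ℝ := {u | ∃ k, u ∈ iv (c (Nat.pair n k))}

theorem measurableSet_cov {f : PP → ℝ} (hf : Measurable f) {c : PP → ℕ → ℕ} (hc : Measurable c)
    (n : ℕ) : MeasurableSet {z | f z ∈ cov (c z) n} := by
  have : {z | f z ∈ cov (c z) n} = ⋃ k, ⋃ m, {z | c z (Nat.pair n k) = m} ∩ {z | f z ∈ iv m} := by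
    ext z
    simp [cov]
  rw [this]
  exact MeasurableSet.iUnion fun k => MeasurableSet.iUnion fun m =>
    ((measurable_pi_apply _).comp hc (measurableSet_singleton m)).inter (hf (measurableSet_iv m))

open Classical in
/-- The least `k` with `z ∈ P k`, zero if there is none. -/
noncomputable def fnd {Ω : Type*} (P : ℕ → Set Ω) (z : Ω) : ℕ :=
  if h : ∃ k, z ∈ P k then Nat.find h else 0

open Classical in
theorem fnd_spec {Ω : Type*} {P : ℕ → Set Ω} {z : Ω} (h : ∃ k, z ∈ P k) : z ∈ P (fnd P z) := by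
  rw [fnd, dif_pos h]
  exact Nat.find_spec h

open Classical in
theorem fnd_min {Ω : Type*} {P : ℕ → Set Ω} {z : Ω} {k : ℕ} (h : z ∈ P k) : fnd P z ≤ k := by
  rw [fnd, dif_pos ⟨k, h⟩]
  exact Nat.find_min' _ h

theorem fnd_congr {Ω : Type*} {P : ℕ → Set Ω} {z z' : Ω} (h : ∀ k, (z ∈ P k) = (z' ∈ P k)) :
    fnd P z = fnd P z' := by
  by_cases h1 : ∃ k, z ∈ P k
  · have h2 : ∃ k, z' ∈ P k := by
      obtain ⟨k, hk⟩ := h1
      exact ⟨k, (h k) ▸ hk⟩
    apply le_antisymm
    · apply fnd_min
      rw [h]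
      exact fnd_spec h2
    · apply fnd_min
      rw [← h]
      exact fnd_spec h1
  · have h2 : ¬ ∃ k, z' ∈ P k := by
      rintro ⟨k, hk⟩
      exact h1 ⟨k, (h k).symm ▸ hk⟩
    rw [fnd, dif_neg h1, fnd, dif_neg h2]

open Classical in
theorem measurable_fnd {Ω : Type*} [MeasurableSpace Ω] {P : ℕ → Set Ω}
    (hP : ∀ k, MeasurableSet (P k)) : Measurable (fnd P) := by
  apply measurable_to_countable'
  intro a
  have : fnd P ⁻¹' {a} = (P a ∩ ⋂ b : Fin a, (P b.1)ᶜ) ∪ ((⋃ k, P k)ᶜ ∩ {_z | 0 = a}) := by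
    ext z
    simp only [Set.mem_preimage, Set.mem_singleton_iff, Set.mem_inter_iff, Set.mem_union,
      Set.mem_ofPred_eq, Set.mem_iInter, Set.mem_compl_iff, Set.mem_iUnion]
    by_cases h3 : ∃ k, z ∈ P k
    · rw [fnd, dif_pos h3, Nat.find_eq_iff]
      constructor
      · rintro ⟨h4, h5⟩
        exact Or.inl ⟨h4, fun b => h5 b.1 b.2⟩
      · rintro (⟨h4, h5⟩ | ⟨h4, _⟩)
        · exact ⟨h4, fun b hb => h5 ⟨b, hb⟩⟩
        · exact absurd h3 h4
    · rw [fnd, dif_neg h3]
      constructor
      · intro h4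
        exact Or.inr ⟨h3, h4⟩
      · rintro (⟨h4, _⟩ | ⟨_, h4⟩)
        · exact absurd ⟨a, h4⟩ h3
        · exact h4
  rw [this]
  exact ((hP a).inter (MeasurableSet.iInter fun b : Fin a => (hP b.1).compl)).union
    ((MeasurableSet.iUnion hP).compl.inter (MeasurableSet.const _))

/-- The points covered by the interval number `k` of the cover number `n`. -/
def hit (f : PP → ℝ) (c : PP → ℕ → ℕ) (n k : ℕ) : Set PP := {z | f z ∈ iv (c z (Nat.pair n k))}

theorem measurableSet_hit {f : PP → ℝ} (hf : Measurable f) {c : PP → ℕ → ℕ} (hc : Measurable c)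
    (n k : ℕ) : MeasurableSet (hit f c n k) := by
  have : hit f c n k = ⋃ m, {z | c z (Nat.pair n k) = m} ∩ {z | f z ∈ iv m} := by
    ext z
    simp [hit]
  rw [this]
  exact MeasurableSet.iUnion fun m =>
    ((measurable_pi_apply _).comp hc (measurableSet_singleton m)).inter (hf (measurableSet_iv m))

/-- A point which depends on the Miller part only below `g` is captured by the next element
function of the Miller real at `g`. -/
theorem caseA (hC : ConstP) (g : Ix) (d : RC) (f : PP → ℝ) (hf : Measurable f)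
    (hfd : DepY (Set.Iio g) f) (c : PP → ℕ → ℕ) (hc : Measurable c) (hcd : DepY (Set.Iio g) c)
    (h : ∀ d' ≤ d, ∀ n, ¬ ∀ z ∈ rb d', ∀ k, f z ∉ iv (c z (Nat.pair n k))) :
    ∃ z ∈ rb d, ∃ n, ∃ k ≤ nx (z.1 g) n, f z ∈ iv (c z (Nat.pair n k)) := by
  obtain ⟨d1, h1, -, σ, -, hs⟩ := stem_glue hC g d 0
  obtain ⟨d2, h2, hT2, hA⟩ := dense_inter_J hC (isLowerSet_Iio g) d1
    (A := fun _ : ℕ => {z | f z ∈ cov (c z) (wt σ + 1)})
    (fun _ => measurableSet_cov hf hc _)
    (fun _ y y' x hy => by
      simp only [Set.mem_ofPred_eq]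
      rw [hfd y y' x hy, hcd y y' x hy])
    (fun _ r' hr' hsub => h r' (hr'.trans h1) (wt σ + 1) fun z hz k hk => hsub hz ⟨k, hk⟩)
  have hs2 : ∀ y ∈ (d2.1.restr (Set.Iio g)).body, Spl (d2.1.T g y) σ := by
    intro y hy
    rw [hT2 g (by simp)]
    exact hs y (Cond.restr_mono (isLowerSet_Iio g) h2.1 hy)
  obtain ⟨r, h3, h4, q', hq, N, hN⟩ := hC (Set.Iio g) (isLowerSet_Iio g) d2.1 d2.2
    (fnd (hit f c (wt σ + 1))) (measurable_fnd (measurableSet_hit hf hc _)) (by
      intro y y' x hy
      apply fnd_congr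
      intro k
      simp only [hit, Set.mem_ofPred_eq]
      rw [hfd y y' x hy, hcd y y' x hy])
  obtain ⟨p', h5, h6, -, -, -, h7⟩ := jump g r d2.1 σ (fun _ => N) measurable_const
    (fun _ _ _ => rfl) h3 h4 (fun y hy => hs2 y (h4 hy))
  obtain ⟨z, hz⟩ := rb_nonempty (p', q')
  have hz2 : z ∈ rb d2 := ⟨h5 hz.1, hq hz.2⟩
  refine ⟨z, rb_mono (h2.trans h1) hz2, wt σ + 1, N, ?_, ?_⟩
  · have h8 := h7 z.1 hz.1
    have := gap_nx (n := wt σ + 1) h8.1 h8.2 (by omega)
    omega
  · have h8 : z ∈ hit f c (wt σ + 1) (fnd (hit f c (wt σ + 1)) z) := fnd_spec (hA 0 hz2)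
    rwa [hN z ⟨h6 hz.1, hz.2⟩] at h8

theorem depY_snd {β : Type*} (J : Set Ix) (f : Pt (Fin 2) Ix → β) : DepY J (fun z => f z.2) :=
  fun _ _ _ _ => rfl

theorem measurable_xr (i : XI) : Measurable (xr i) :=
  measurable_th.comp ((measurable_padd i.2).comp
    ((measurable_pi_apply (i.1 : Ix)).comp measurable_snd))

theorem measurable_add_eg (b : Ix) :
    Measurable fun z : PP => fun n => z.2 b n + eg (z.1 b) n := by
  rw [measurable_pi_iff]
  intro n
  have h1 : Measurable fun z : PP => z.2 b n :=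
    (measurable_pi_apply n).comp ((measurable_pi_apply b).comp measurable_snd)
  have h2 : Measurable fun z : PP => eg (z.1 b) n :=
    (measurable_pi_apply n).comp (measurable_eg.comp ((measurable_pi_apply b).comp measurable_fst))
  have h3 : (fun z : PP => z.2 b n + eg (z.1 b) n) =
      (fun w : Fin 2 × Fin 2 => w.1 + w.2) ∘ fun z => (z.2 b n, eg (z.1 b) n) := rfl
  rw [h3]
  exact (measurable_of_countable _).comp (h1.prodMk h2)

theorem measurable_yr (j : YI) : Measurable (yr j) := by
  rcases j with j | j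
  · exact measurable_th.comp ((measurable_padd j.2).comp
      ((measurable_pi_apply (j.1 : Ix)).comp measurable_snd))
  · exact measurable_th.comp ((measurable_padd j.2).comp (measurable_add_eg j.1))

/-- `X` is Menger. -/
theorem menX (hC : ConstP) : MenFam xr := by
  intro e c hc h
  obtain ⟨C, hC1, hC2⟩ := exists_depP_seq hc
  obtain ⟨g, hg⟩ := exists_bound C hC1
  have hcd : DepY (Set.Iio g) c := (hC2.mono fun i hi => hg i hi).depY
  refine ⟨fun z => nx (z.1 g), measurable_nx.comp ((measurable_pi_apply g).comp measurable_fst),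
    fun i d hd hcon => ?_⟩
  obtain ⟨z, h1, n, k, h2, h3⟩ := caseA hC g d (xr i) (measurable_xr i)
    (depY_snd _ fun x => th (padd (x i.1) i.2)) c hc hcd
    (fun d' hd' n => h i d' (hd'.trans hd) n)
  exact hcon z h1 n k h2 h3

/-! ### Copying a Sacks coordinate -/

/-- The tree of the coordinate `b` copied to the coordinate `b'`. -/
theorem exists_copy (q : Cond (Fin 2) Ix) {b b' : Ix} (hb : b < b') (hb' : b' ∉ q.S) :
    ∃ q' ≤ q, ∀ x ∈ q'.body, ∃ x' ∈ q.body, (∀ i < b, x' i = x i) ∧ x' b = x b' := by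
  classical
  let q' : Cond (Fin 2) Ix :=
    { T := fun i x => if i = b' then q.T b x else q.T i x
      S := q.S ∪ {b'}
      good := by
        intro i x
        split_ifs
        · exact q.good b x
        · exact q.good i x
      scount := q.scount.union (Set.countable_singleton b')
      full' := by
        intro i hi x
        simp only [Set.mem_union, Set.mem_singleton_iff, not_or] at hi
        rw [if_neg hi.2]
        exact q.full' i hi.1 x
      dep := by
        intro i y y' h
        by_cases hi : i = b'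
        · simp only [hi, if_true]
          exact q.dep b y y' fun j hj hjb => h j (Or.inl hj) (by rw [hi]; exact hjb.trans hb)
        · simp only [hi, if_false]
          exact q.dep i y y' fun j hj hji => h j (Or.inl hj) hji
      meas := by
        intro i
        by_cases hi : i = b'
        · simpa only [hi, if_true] using q.meas b
        · simpa only [hi, if_false] using q.meas i }
  have hle : q' ≤ q := by
    intro x hx i
    by_cases hi : i = b'
    · rw [hi, q.full' b' hb']
      intro m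
      exact pre_mem_full _ _
    · have := hx i
      simpa only [q', hi, if_false] using this
  refine ⟨q', hle, fun x hx => ?_⟩
  have h1 := hx b'
  simp only [q', if_true] at h1
  exact q.exists_ext_at b (fun i _ => hle hx i) h1

end Pool.Agent.Men
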