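import Pool.Agent.Helper98_MEN.XY

/-!
# Squad MEN, the Menger part: `Y` is Menger
-/

open MeasureTheory Set

namespace Pool.Agent.Men

/-- If no odd Sacks real is forced outside of the covered set, then no Sacks real at a coordinate
`b > g` is. -/
theorem noBad {g b : Ix} (hgb : g < b) {e : RC} {c : PP → ℕ → ℕ} (hcd : DepP (Set.Iio g) c)
    (hodd : ∀ b' : Ix, par b' = false → ∀ F' : Finset ℕ, ∀ d' ≤ e, ∀ n,
      ¬ ∀ z ∈ rb d', ∀ k, th (padd (z.2 b') F') ∉ iv (c z (Nat.pair n k))) :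
    ∀ F' : Finset ℕ, ∀ d' ≤ e, ∀ n,
      ¬ ∀ z ∈ rb d', ∀ k, th (padd (z.2 b) F') ∉ iv (c z (Nat.pair n k)) := by
  intro F' d' hd' n hcon
  obtain ⟨b', hb1, hb2⟩ := exists_par (d'.2.S ∪ {b})
    (d'.2.scount.union (Set.countable_singleton b)) false
  obtain ⟨q', hq, hq'⟩ := exists_copy d'.2 (hb1 b (Or.inr rfl))
    (fun h => lt_irrefl _ (hb1 b' (Or.inl h)))
  apply hodd b' hb2 F' (d'.1, q') (le_trans (show (d'.1, q') ≤ d' from ⟨le_rfl, hq⟩) hd') n
  intro z hz k
  obtain ⟨x', h1, h2, h3⟩ := hq' z.2 hz.2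
  have h4 := hcon (z.1, x') ⟨hz.1, h1⟩ k
  have h5 : c (z.1, x') = c z := hcd _ _ (fun _ _ => rfl) fun i hi => h2 i (lt_trans hi hgb)
  rw [h5] at h4
  simp only [h3] at h4
  exact h4

/-- `M` is large enough for all sequences `z_b + F''`, `F'' ⊆ range n`, and the cover `n`. -/
def rad (b : Ix) (c : PP → ℕ → ℕ) (n M : ℕ) : Set PP :=
  {z | ∀ F ∈ (Finset.range n).powerset, ∀ t' : ℕ → Fin 2, (∀ j < M, t' j = padd (z.2 b) F j) →
    ∃ k ≤ M, th t' ∈ iv (c z (Nat.pair n k))}

theorem measurableSet_rad (b : Ix) {c : PP → ℕ → ℕ} (hc : Measurable c) (n M : ℕ) :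
    MeasurableSet (rad b c n M) := by
  let Φ : PP → (Fin M → Fin 2) × (Fin (M + 1) → ℕ) := fun z =>
    (fun j => z.2 b j.1, fun k => c z (Nat.pair n k.1))
  let Q : Set ((Fin M → Fin 2) × (Fin (M + 1) → ℕ)) :=
    {w | ∀ F ∈ (Finset.range n).powerset, ∀ t' : ℕ → Fin 2,
      (∀ j : Fin M, t' j.1 = w.1 j + if j.1 ∈ F then 1 else 0) → ∃ k : Fin (M + 1),
        th t' ∈ iv (w.2 k)}
  have h1 : rad b c n M = Φ ⁻¹' Q := by
    ext z
    simp only [rad, Set.mem_ofPred_eq, Set.mem_preimage, Q, Φ]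
    constructor
    · intro h F hF t' ht'
      obtain ⟨k, hk, hk'⟩ := h F hF t' fun j hj => ht' ⟨j, hj⟩
      exact ⟨⟨k, by omega⟩, hk'⟩
    · intro h F hF t' ht'
      obtain ⟨k, hk'⟩ := h F hF t' fun j => ht' j.1 j.2
      exact ⟨k.1, by omega, hk'⟩
  have h2 : Measurable Φ := by
    refine Measurable.prodMk ?_ ?_
    · exact measurable_pi_iff.2 fun j =>
        (measurable_pi_apply j.1).comp ((measurable_pi_apply b).comp measurable_snd)
    · exact measurable_pi_iff.2 fun k => (measurable_pi_apply _).comp hc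
  rw [h1]
  exact h2 (Set.to_countable Q).measurableSet

theorem exists_rad (b : Ix) (c : PP → ℕ → ℕ) (n : ℕ) (z : PP)
    (h : ∀ F : Finset ℕ, th (padd (z.2 b) F) ∈ cov (c z) n) : ∃ M, z ∈ rad b c n M := by
  choose k hk using h
  choose M hM using fun F => th_open (padd (z.2 b) F) _ (hk F)
  refine ⟨(Finset.range n).powerset.sup fun F => max (k F) (M F), fun F hF t' ht' => ?_⟩
  have h1 : max (k F) (M F) ≤ (Finset.range n).powerset.sup fun F => max (k F) (M F) :=
    Finset.le_sup (f := fun F => max (k F) (M F)) hF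
  refine ⟨k F, (le_max_left _ _).trans h1, hM F t' fun i hi => ?_⟩
  exact (ht' i (lt_of_lt_of_le hi ((le_max_right _ _).trans h1))).symm

theorem caseB (hC : ConstP) {g b : Ix} (hgb : g < b) (F : Finset ℕ) {e d : RC} (hde : d ≤ e)
    {c : PP → ℕ → ℕ} (hc : Measurable c) (hcd : DepP (Set.Iio g) c)
    (hodd : ∀ b' : Ix, par b' = false → ∀ F' : Finset ℕ, ∀ d' ≤ e, ∀ n,
      ¬ ∀ z ∈ rb d', ∀ k, th (padd (z.2 b') F') ∉ iv (c z (Nat.pair n k))) :
    ∃ z ∈ rb d, ∃ n, ∃ k ≤ nx (z.1 g) n,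
      th (padd (fun n => z.2 b n + eg (z.1 b) n) F) ∈ iv (c z (Nat.pair n k)) := by
  obtain ⟨d1, h1, -, ρ, -, hρ⟩ := stem_glue hC b d 0
  obtain ⟨d2, h2, hT2, σ, -, hσ⟩ := stem_glue hC g d1 0
  have hm : ∀ F' : Finset ℕ, Measurable fun z : PP => th (padd (z.2 b) F') := fun F' =>
    measurable_th.comp ((measurable_padd F').comp ((measurable_pi_apply b).comp measurable_snd))
  have hcy := hcd.depY
  let n := wt σ + wt ρ + F.sup id + 1
  obtain ⟨d3, h3, hT3, hA⟩ := dense_inter_J hC (isLowerSet_Iio g) d2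
    (A := fun m : ℕ => {z | th (padd (z.2 b) (Denumerable.ofNat (Finset ℕ) m)) ∈ cov (c z) n})
    (fun m => measurableSet_cov (hm _) hc _)
    (fun m y y' x hy => by
      simp only [Set.mem_ofPred_eq]
      rw [hcy y y' x hy])
    (fun m r' hr' hsub => noBad hgb hcd hodd _ r' ((hr'.trans h2).trans (h1.trans hde)) n
      fun z hz k hk => hsub hz ⟨k, hk⟩)
  have hA' : ∀ z ∈ rb d3, ∃ M, z ∈ rad b c n M := fun z hz =>
    exists_rad b c n z fun F' => by
      have := hA (@Encodable.encode (Finset ℕ) Denumerable.toEncodable F') hz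
      simpa only [Denumerable.ofNat_encode, Set.mem_ofPred_eq] using this
  obtain ⟨r, h4, h5, q', hq, N, hN⟩ := hC (Set.Iio g) (isLowerSet_Iio g) d3.1 d3.2
    (fnd (rad b c n)) (measurable_fnd (measurableSet_rad b hc n)) (by
      intro y y' x hy
      apply fnd_congr
      intro M
      simp only [rad, Set.mem_ofPred_eq]
      rw [hcy y y' x hy])
  have hσ3 : ∀ y ∈ r.body, Spl (d3.1.T g y) σ := by
    intro y hy
    rw [hT3 g (by simp)]
    exact hσ y (Cond.restr_mono (isLowerSet_Iio g) h3.1 (h5 hy))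
  obtain ⟨p4, h6, h7, -, h8, -, h9⟩ := jump g r d3.1 σ (fun _ => N) measurable_const
    (fun _ _ _ => rfl) h4 h5 hσ3
  have hρ4 : ∀ y ∈ (p4.restr (Set.Iio b)).body, Spl (p4.T b y) ρ := by
    intro y hy
    rw [h8 b hgb, hT3 b (by simpa using hgb.le), hT2 b (by simpa using hgb.le)]
    exact hρ y (Cond.restr_mono (isLowerSet_Iio b) ((h6.trans h3.1).trans h2.1) hy)
  obtain ⟨p5, h10, -, -, -, -, h11⟩ := jump b (p4.restr (Set.Iio b)) p4 ρ (fun _ => N)
    measurable_const (fun _ _ _ => rfl) (p4.restr_below _) le_rfl hρ4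
  obtain ⟨z, hz⟩ := rb_nonempty (p5, q')
  have hz4 : z.1 ∈ p4.body := h10 hz.1
  have hz3 : z ∈ rb d3 := ⟨h6 hz4, hq hz.2⟩
  have hzN : fnd (rad b c n) z = N := hN z ⟨h7 hz4, hz.2⟩
  have hzr : z ∈ rad b c n N := by
    have := fnd_spec (hA' z hz3)
    rwa [hzN] at this
  have h12 := h9 z.1 hz4
  have h13 := h11 z.1 hz.1
  refine ⟨z, rb_mono (h3.trans (h2.trans h1)) hz3, n, ?_⟩
  classical
  let F' : Finset ℕ := (Finset.range n).filter fun m =>
    (eg (z.1 b) m + if m ∈ F then 1 else 0) = 1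
  obtain ⟨k, hk, hk'⟩ := hzr F' (by simp [F'])
    (padd (fun n => z.2 b n + eg (z.1 b) n) F) (by
      intro j hj
      simp only [padd]
      by_cases hjn : j < n
      · have h14 : (j ∈ F') ↔ (eg (z.1 b) j + if j ∈ F then 1 else 0) = 1 := by
          simp [F', hjn]
        have h15 : ∀ a : Fin 2, (if a = 1 then (1 : Fin 2) else 0) = a := by decide
        have h16 := h15 (eg (z.1 b) j + if j ∈ F then 1 else 0)
        rw [add_assoc]
        congr 1
        simp only [h14]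
        exact h16.symm
      · have h14 : j ∉ F := by
          intro h
          have : j ≤ F.sup id := Finset.le_sup (f := id) h
          omega
        have h15 : j ∉ F' := by simp [F', hjn]
        have h16 : eg (z.1 b) j = 0 := gap_eg h13.1 h13.2 (by omega) (by omega)
        simp [h14, h15, h16])
  refine ⟨k, hk.trans ?_, hk'⟩
  have := gap_nx (n := n) h12.1 h12.2 (by omega)
  omega

/-- `Y` is Menger. -/
theorem menY (hC : ConstP) : MenFam yr := by
  intro e c hc h
  obtain ⟨C, hC1, hC2⟩ := exists_depP_seq hc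
  obtain ⟨g, hg, hgp⟩ := exists_par C hC1 false
  have hcp : DepP (Set.Iio g) c := hC2.mono fun i hi => hg i hi
  refine ⟨fun z => nx (z.1 g), measurable_nx.comp ((measurable_pi_apply g).comp measurable_fst),
    fun j d hd hcon => ?_⟩
  rcases j with j | j
  · obtain ⟨z, h1, n, k, h2, h3⟩ := caseA hC g d (yr (.inl j)) (measurable_yr _)
      (depY_snd _ fun x => th (padd (x j.1) j.2)) c hc hcp.depY
      (fun d' hd' n => h (.inl j) d' (hd'.trans hd) n)
    exact hcon z h1 n k h2 h3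
  · rcases lt_trichotomy (j.1 : Ix) g with hb | hb | hb
    · obtain ⟨z, h1, n, k, h2, h3⟩ := caseA hC g d (yr (.inr j)) (measurable_yr _)
        (fun y y' x hy => by
          simp only [yr]
          rw [hy _ hb]) c hc hcp.depY
        (fun d' hd' n => h (.inr j) d' (hd'.trans hd) n)
      exact hcon z h1 n k h2 h3
    · have := j.1.2
      rw [hb, hgp] at this
      exact absurd this (by simp)
    · obtain ⟨z, h1, n, k, h2, h3⟩ := caseB hC hb j.2 hd hc hcp
        (fun b' hb' F' d' hd' n => h (.inl (⟨b', hb'⟩, F')) d' hd' n)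
      exact hcon z h1 n k h2 h3

/-- P8. -/
theorem menXY (hC : ConstP) : MenXYStmt :=
  ⟨menX hC, menY hC, measurable_xr, measurable_yr⟩

end Pool.Agent.Men
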